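import Pool.Agent.Q17.DM.Stm

/-! Job ASM of project DM (helper17): the sum over chains for the wreath product. -/

set_option autoImplicit false

open scoped Classical

noncomputable section

namespace Pool.Agent.Q14.DM

open Pool.Agent.H254R3.IN hiding NN
open Pool.Agent.Y63.KR Pool.Agent.Q17.WR Pool.Agent.Q17.DC Pool.Agent.Q17.AM Pool.Agent.Q17.OS
open Pool.Agent.Q17.DM

/-- Expansion of the alternating sum of a function of the stabiliser. -/
theorem cs_eq {R : Type} [CommRing R] {p : ℕ} {Γ : Type} [Group Γ] [Finite Γ]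
    [Fintype (Subgroup Γ)] (X Z : Subgroup Γ) (F f : Subgroup Γ → R)
    (hf : ∀ H, F H = ∑ K, if K ≤ H then f K else 0) :
    CS p X Z F = ∑ K, f K * (WZ p X Z K : R) := by
  let _ : Fintype {σ : Set (Subgroup Γ) // Ch p X Z σ} := Fintype.ofFinite _
  unfold CS WZ
  simp only [finsum_eq_sum_of_fintype]
  push_cast
  simp only [hf, Finset.mul_sum]
  rw [Finset.sum_comm]
  refine Finset.sum_congr rfl fun K _ => Finset.sum_congr rfl fun σ _ => ?_
  split_ifs
  · ring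
  · ring

section

variable {G : Type} [Group G] {r : ℕ} [Fact r.Prime]

theorem full_right (K : Subgroup (Wc G r)) (hK : ∃ x ∈ K, x.right ≠ 1) (ω : Cy r) :
    ∃ x ∈ K, x.right = ω := by
  obtain ⟨x, hx, hx1⟩ := hK
  have hr : r.Prime := Fact.out
  have : NeZero r := ⟨hr.ne_zero⟩
  have hcard : Nat.card (Cy r) = r := by
    rw [Nat.card_congr Multiplicative.toAdd, Nat.card_zmod]
  have : Fact (Nat.card (Cy r)).Prime := ⟨by rw [hcard]; exact hr⟩
  let H : Subgroup (Cy r) := K.map (SemidirectProduct.rightHom : Wc G r →* Cy r)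
  have hH : H = ⊤ := by
    rcases H.eq_bot_or_eq_top_of_prime_card with h | h
    · exfalso
      have h1 : x.right ∈ H := ⟨x, hx, rfl⟩
      rw [h, Subgroup.mem_bot] at h1
      exact hx1 h1
    · exact h
  have h2 : ω ∈ H := by rw [hH]; exact Subgroup.mem_top _
  obtain ⟨y, hy, hy2⟩ := h2
  exact ⟨y, hy, hy2⟩

theorem le_Lw (K : Subgroup (Wc G r)) (X : Cy r → Wc G r) (hX : ∀ ω, X ω ∈ K)
    (hX1 : ∀ ω, (X ω).right = ω) (m : Cy r → G) (hm : m 1 = 1) (L : Subgroup G) :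
    K ≤ Lw m L ↔ Q17.DM.cmp 1 K ≤ L ∧ ∀ ω, ω ≠ 1 → ((X ω).left ω)⁻¹ * m ω ∈ L := by
  constructor
  · intro h
    constructor
    · rintro g ⟨x, hx, hx1, rfl⟩
      have h1 := h hx 1
      rw [hx1, inv_one, one_mul, hm, inv_one, one_mul, mul_one] at h1
      exact h1
    · intro ω _
      have h1 := h (hX ω) ω
      rw [hX1, inv_mul_cancel, hm, mul_one] at h1
      have h2 := L.inv_mem h1
      rw [mul_inv_rev, inv_inv] at h2
      exact h2
  · rintro ⟨h1, h2⟩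
    have h3 : ∀ ω, ((X ω).left ω)⁻¹ * m ω ∈ L := by
      intro ω
      by_cases hω : ω = 1
      · subst hω
        rw [hm, mul_one]
        exact L.inv_mem (h1 ⟨X 1, hX 1, hX1 1, rfl⟩)
      · exact h2 ω hω
    intro x hx ω
    have h4 : ((X ω)⁻¹ * x * X (x.right⁻¹ * ω)).right = 1 := by
      rw [SemidirectProduct.mul_right, SemidirectProduct.mul_right, SemidirectProduct.inv_right,
        hX1, hX1]
      rw [← mul_assoc, mul_assoc ω⁻¹ x.right, mul_inv_cancel, mul_one, inv_mul_cancel]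
    have h5 : ((X ω)⁻¹ * x * X (x.right⁻¹ * ω)).left 1 ∈ Q17.DM.cmp 1 K :=
      ⟨_, K.mul_mem (K.mul_mem (K.inv_mem (hX ω)) hx) (hX _), h4, rfl⟩
    have h6 : ((X ω)⁻¹ * x * X (x.right⁻¹ * ω)).left 1 =
        ((X ω).left ω)⁻¹ * x.left ω * (X (x.right⁻¹ * ω)).left (x.right⁻¹ * ω) := by
      have e1 : ((X ω)⁻¹ * x * X (x.right⁻¹ * ω)).left 1 =
          ((X ω)⁻¹ * x).left 1 * (X (x.right⁻¹ * ω)).left (((X ω)⁻¹ * x).right⁻¹ * 1) := rfl
      have e2 : ((X ω)⁻¹ * x).left 1 = ((X ω)⁻¹).left 1 * x.left (((X ω)⁻¹).right⁻¹ * 1) := rfl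
      have e3 : ((X ω)⁻¹).left 1 = ((X ω).left ω)⁻¹ := by
        change ((X ω).left ((((X ω).right)⁻¹)⁻¹ * 1))⁻¹ = _
        rw [inv_inv, hX1, mul_one]
      have e4 : (((X ω)⁻¹).right)⁻¹ * (1 : Cy r) = ω := by
        rw [SemidirectProduct.inv_right, inv_inv, hX1, mul_one]
      have e5 : (((X ω)⁻¹ * x).right)⁻¹ * (1 : Cy r) = x.right⁻¹ * ω := by
        rw [SemidirectProduct.mul_right, SemidirectProduct.inv_right, hX1, mul_one, mul_inv_rev,
          inv_inv]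
      rw [e1, e2, e3, e4, e5]
    rw [h6] at h5
    have h7 := h1 h5
    have h8 : (m ω)⁻¹ * x.left ω * m (x.right⁻¹ * ω) =
        ((((X ω).left ω)⁻¹ * m ω)⁻¹ *
          (((X ω).left ω)⁻¹ * x.left ω * (X (x.right⁻¹ * ω)).left (x.right⁻¹ * ω))) *
          (((X (x.right⁻¹ * ω)).left (x.right⁻¹ * ω))⁻¹ * m (x.right⁻¹ * ω)) := by
      group
    rw [h8]
    exact L.mul_mem (L.mul_mem (L.inv_mem (h3 ω)) h7) (h3 _)

/-- extension by `1` at `1` -/
def ex (m : {ω : Cy r // ω ≠ 1} → G) (ω : Cy r) : G := if h : ω ≠ 1 then m ⟨ω, h⟩ else 1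

theorem ex_one (m : {ω : Cy r // ω ≠ 1} → G) : ex m 1 = 1 := by
  unfold ex
  rw [dif_neg (fun h => h rfl)]

theorem ex_ne (m : {ω : Cy r // ω ≠ 1} → G) (ω : {ω : Cy r // ω ≠ 1}) : ex m ω.1 = m ω := by
  unfold ex
  rw [dif_pos ω.2]

theorem card_ne : Nat.card {ω : Cy r // ω ≠ 1} = r - 1 := by
  have hr : r.Prime := Fact.out
  have : NeZero r := ⟨hr.ne_zero⟩
  have h1 : Fintype.card (Cy r) = r := by
    rw [Fintype.card_congr Multiplicative.toAdd, ZMod.card]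
  rw [Nat.card_eq_fintype_card, Fintype.card_subtype_compl, h1, Fintype.card_subtype_eq]

theorem count_le [Finite G] (K : Subgroup (Wc G r)) (hK : ∃ x ∈ K, x.right ≠ 1)
    (L : Subgroup G) : Nat.card {m : {ω : Cy r // ω ≠ 1} → G // K ≤ Lw (ex m) L} =
      if Q17.DM.cmp 1 K ≤ L then (Nat.card L) ^ (r - 1) else 0 := by
  have hr : r.Prime := Fact.out
  have : NeZero r := ⟨hr.ne_zero⟩
  choose X hX hX1 using full_right K hK
  split_ifs with h
  · have e : {m : {ω : Cy r // ω ≠ 1} → G // K ≤ Lw (ex m) L} ≃ ({ω : Cy r // ω ≠ 1} → L) :=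
      { toFun := fun m ω => ⟨((X ω.1).left ω.1)⁻¹ * m.1 ω, by
          have h1 := ((le_Lw K X hX hX1 (ex m.1) (ex_one m.1) L).1 m.2).2 ω.1 ω.2
          rw [ex_ne] at h1
          exact h1⟩
        invFun := fun l => ⟨fun ω => (X ω.1).left ω.1 * (l ω : G), by
          refine (le_Lw K X hX hX1 _ (ex_one _) L).2 ⟨h, fun ω hω => ?_⟩
          have h1 := ex_ne (fun ω : {ω : Cy r // ω ≠ 1} => (X ω.1).left ω.1 * (l ω : G)) ⟨ω, hω⟩
          change ex (fun ω : {ω : Cy r // ω ≠ 1} => (X ω.1).left ω.1 * (l ω : G)) ω = _ at h1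
          rw [h1, inv_mul_cancel_left]
          exact (l _).2⟩
        left_inv := fun m => by
          apply Subtype.ext
          funext ω
          change (X ω.1).left ω.1 * (((X ω.1).left ω.1)⁻¹ * m.1 ω) = m.1 ω
          rw [mul_inv_cancel_left]
        right_inv := fun l => by
          funext ω
          apply Subtype.ext
          change ((X ω.1).left ω.1)⁻¹ * ((X ω.1).left ω.1 * (l ω : G)) = _
          rw [inv_mul_cancel_left] }
    rw [Nat.card_congr e, Nat.card_fun, card_ne]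
  · rw [Nat.card_eq_zero]
    left
    refine ⟨fun m => h ((le_Lw K X hX hX1 (ex m.1) (ex_one m.1) L).1 m.2).1⟩

omit [Group G] in
theorem card_all [Finite G] : Nat.card ({ω : Cy r // ω ≠ 1} → G) = (Nat.card G) ^ (r - 1) := by
  have hr : r.Prime := Fact.out
  have : NeZero r := ⟨hr.ne_zero⟩
  rw [Nat.card_fun, card_ne]

theorem le_Bi (K H : Subgroup (Wc G r)) :
    K ≤ Bi H ↔ K ≤ H ∧ ∀ x ∈ K, x.right = 1 := by
  unfold Bi
  rw [le_inf_iff]
  rfl

theorem le_Pw (K : Subgroup (Wc G r)) (hK : ∀ x ∈ K, x.right = 1) (y : Cy r → Subgroup G) :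
    (fun ω => Q17.DM.cmp ω K) ≤ y ↔ K ≤ Pw y := by
  constructor
  · intro h x hx
    exact ⟨hK x hx, fun ω => h ω ⟨x, hx, hK x hx, rfl⟩⟩
  · rintro h ω g ⟨x, hx, hx1, rfl⟩
    exact (h hx).2 ω

end

theorem sum_sub {X R : Type} [Fintype X] [AddCommMonoid R] (P : X → Prop) (g : X → R) :
    ∑ x : {x // P x}, g x.1 = ∑ x, if P x then g x else 0 := by
  rw [← Finset.sum_filter]
  refine (Finset.sum_subtype _ (fun x => ?_) _).symm
  rw [Finset.mem_filter]
  exact ⟨fun h => h.2, fun h => ⟨Finset.mem_univ _, h⟩⟩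

/-- The part of the sum over the subgroups of the base group. -/
theorem part_a (hADJ : S_ADJ) {p r : ℕ} [Fact p.Prime] [Fact r.Prime] {G : Type} [Group G]
    [Finite G] [Fintype (Subgroup G)] [Fintype (Subgroup (Wc G r))]
    (F f : Subgroup (Wc G r) → Polynomial ℤ) (F₁ f₁ : Subgroup G → Polynomial ℤ)
    (hf : ∀ H, F H = ∑ K, if K ≤ H then f K else 0)
    (hf₁ : ∀ H, F₁ H = ∑ K, if K ≤ H then f₁ K else 0)
    (hF : ∀ H : Cy r → Subgroup G, F (Pw H) = ∏ ω, F₁ (H ω)) :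
    ∑ K : {K : Subgroup (Wc G r) // ∀ x ∈ K, x.right = 1},
      f K.1 * ∏ ω, ((WZ p ⊤ ⊥ (Q17.DM.cmp ω K.1) : ℤ) : Polynomial ℤ) =
      (∑ K, f₁ K * ((WZ p ⊤ ⊥ K : ℤ) : Polynomial ℤ)) ^ r := by
  have hr : r.Prime := Fact.out
  have : NeZero r := ⟨hr.ne_zero⟩
  have hcard : Fintype.card (Cy r) = r := by
    rw [Fintype.card_congr Multiplicative.toAdd, ZMod.card]
  have hkey := (hADJ (Polynomial ℤ) {K : Subgroup (Wc G r) // ∀ x ∈ K, x.right = 1}).2
    (Cy r → Subgroup G) (fun K ω => Q17.DM.cmp ω K.1)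
    (fun y => ⟨Pw y, fun x hx => hx.1⟩)
    (fun K y => le_Pw K.1 K.2 y)
    (fun K => F K.1) (fun K => f K.1) (fun y => ∏ ω, f₁ (y ω))
    (by
      intro x
      rw [hf x.1, ← Finset.sum_filter, ← Finset.sum_filter]
      symm
      refine Finset.sum_bij (fun K _ => K.1) ?_ ?_ ?_ ?_
      · intro K hK
        rw [Finset.mem_filter] at hK ⊢
        exact ⟨Finset.mem_univ _, hK.2⟩
      · intro K _ K' _ h
        exact Subtype.ext h
      · intro K hK
        rw [Finset.mem_filter] at hK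
        refine ⟨⟨K, fun y hy => x.2 y (hK.2 hy)⟩, ?_, rfl⟩
        rw [Finset.mem_filter]
        exact ⟨Finset.mem_univ _, hK.2⟩
      · intro K _
        rfl)
    (by
      intro y
      rw [hF y]
      have h1 : ∀ ω, F₁ (y ω) = ∑ K, if K ≤ y ω then f₁ K else 0 := fun ω => hf₁ _
      simp only [h1]
      rw [Finset.prod_univ_sum, Fintype.piFinset_univ]
      refine Finset.sum_congr rfl fun k _ => ?_
      by_cases h : k ≤ y
      · rw [if_pos h]
        exact Finset.prod_congr rfl fun ω _ => if_pos (h ω)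
      · rw [if_neg h]
        rw [Pi.le_def, not_forall] at h
        obtain ⟨ω, hω⟩ := h
        exact Finset.prod_eq_zero (Finset.mem_univ ω) (if_neg hω))
    (fun y => ∏ ω, ((WZ p ⊤ ⊥ (y ω) : ℤ) : Polynomial ℤ))
  refine hkey.trans ?_
  have h2 : ∀ y : Cy r → Subgroup G, (∏ ω, f₁ (y ω)) *
      ∏ ω, ((WZ p ⊤ ⊥ (y ω) : ℤ) : Polynomial ℤ) =
      ∏ ω, f₁ (y ω) * ((WZ p ⊤ ⊥ (y ω) : ℤ) : Polynomial ℤ) := fun y =>
    (Finset.prod_mul_distrib).symm
  simp only [h2]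
  have h3 : (∑ K, f₁ K * ((WZ p ⊤ ⊥ K : ℤ) : Polynomial ℤ)) ^ r =
      ∏ _ω : Cy r, ∑ K, f₁ K * ((WZ p ⊤ ⊥ K : ℤ) : Polynomial ℤ) := by
    rw [Finset.prod_const, Finset.card_univ, hcard]
  rw [h3, Finset.prod_univ_sum, Fintype.piFinset_univ]

/-- The sum over the subgroups which are not contained in the base group. -/
theorem part_b {r : ℕ} [Fact r.Prime] {G : Type} [Group G]
    [Finite G] [Fintype (Subgroup G)] [Fintype (Subgroup (Wc G r))]
    (F f : Subgroup (Wc G r) → Polynomial ℤ) (Φ : Subgroup G → Polynomial ℤ)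
    (hf : ∀ H, F H = ∑ K, if K ≤ H then f K else 0)
    (hΦ : ∀ (L : Subgroup G) (m : Cy r → G),
      F (Lw m L) - F (Bi (Lw m L)) = ((Nat.card L) ^ (r - 1)) • Φ L) (L : Subgroup G) :
    ((Nat.card G) ^ (r - 1)) • Φ L = ∑ K : {K : Subgroup (Wc G r) // ∃ x ∈ K, x.right ≠ 1},
      if Q17.DM.cmp 1 K.1 ≤ L then f K.1 else 0 := by
  have hr : r.Prime := Fact.out
  have : NeZero r := ⟨hr.ne_zero⟩
  let _ : Fintype ({ω : Cy r // ω ≠ 1} → G) := Fintype.ofFinite _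
  have h1 : ∀ m : {ω : Cy r // ω ≠ 1} → G, F (Lw (ex m) L) - F (Bi (Lw (ex m) L)) =
      ∑ K : {K : Subgroup (Wc G r) // ∃ x ∈ K, x.right ≠ 1},
        if K.1 ≤ Lw (ex m) L then f K.1 else 0 := by
    intro m
    rw [hf, hf, ← Finset.sum_sub_distrib,
      sum_sub (fun K : Subgroup (Wc G r) => ∃ x ∈ K, x.right ≠ 1)
        (fun K => if K ≤ Lw (ex m) L then f K else 0)]
    refine Finset.sum_congr rfl fun K _ => ?_
    by_cases hK : ∃ x ∈ K, x.right ≠ 1
    · rw [if_pos hK, if_neg (c := K ≤ Bi (Lw (ex m) L)), sub_zero]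
      intro h
      obtain ⟨x, hx, hx1⟩ := hK
      exact hx1 (((le_Bi _ _).1 h).2 x hx)
    · rw [if_neg hK]
      have hK' : ∀ x ∈ K, x.right = 1 := by
        intro x hx
        by_contra h
        exact hK ⟨x, hx, h⟩
      by_cases h : K ≤ Lw (ex m) L
      · rw [if_pos h, if_pos ((le_Bi _ _).2 ⟨h, hK'⟩), sub_self]
      · rw [if_neg h, if_neg (fun h' => h ((le_Bi _ _).1 h').1), sub_self]
  have h2 : ∑ m : {ω : Cy r // ω ≠ 1} → G, (F (Lw (ex m) L) - F (Bi (Lw (ex m) L))) =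
      (Nat.card L) ^ (r - 1) • ((Nat.card G) ^ (r - 1)) • Φ L := by
    simp only [hΦ]
    rw [Finset.sum_const, Finset.card_univ, ← Nat.card_eq_fintype_card, card_all,
      smul_comm]
  have h3 : ∑ m : {ω : Cy r // ω ≠ 1} → G, (F (Lw (ex m) L) - F (Bi (Lw (ex m) L))) =
      (Nat.card L) ^ (r - 1) • ∑ K : {K : Subgroup (Wc G r) // ∃ x ∈ K, x.right ≠ 1},
        if Q17.DM.cmp 1 K.1 ≤ L then f K.1 else 0 := by
    simp only [h1]
    rw [Finset.sum_comm, Finset.smul_sum]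
    refine Finset.sum_congr rfl fun K _ => ?_
    rw [← Finset.sum_filter, Finset.sum_const]
    have h4 : (Finset.univ.filter fun m : {ω : Cy r // ω ≠ 1} → G =>
        K.1 ≤ Lw (ex m) L).card = if Q17.DM.cmp 1 K.1 ≤ L then (Nat.card L) ^ (r - 1) else 0 := by
      rw [← count_le K.1 K.2 L, Nat.card_eq_fintype_card, Fintype.card_subtype]
    rw [h4]
    split_ifs
    · rfl
    · rw [zero_smul, smul_zero]
  have h5 : (Nat.card L) ^ (r - 1) ≠ 0 := pow_ne_zero _ Nat.card_pos.ne'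
  have h6 := h2.symm.trans h3
  exact smul_right_injective (Polynomial ℤ) h5 h6

theorem cs_smul {p : ℕ} {Γ : Type} [Group Γ] [Finite Γ] (n : ℕ)
    (F : Subgroup Γ → Polynomial ℤ) : CS p ⊤ ⊥ (fun L => n • F L) = n • CS p ⊤ ⊥ F := by
  let _ : Fintype {σ : Set (Subgroup Γ) // Ch p (⊤ : Subgroup Γ) ⊥ σ} := Fintype.ofFinite _
  unfold CS
  simp only [finsum_eq_sum_of_fintype]
  rw [Finset.smul_sum]
  refine Finset.sum_congr rfl fun σ _ => ?_
  rw [mul_smul_comm]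

/-- Job ASM: the sum over chains for the wreath product. -/
theorem t_ASM : S_ADJ → S_WZM → S_WZN → S_ASM := by
  intro hADJ hM hN p r _ _ hpr G _ _ F F₁ Φ hF hΦ
  have hr : r.Prime := Fact.out
  have : NeZero r := ⟨hr.ne_zero⟩
  let _ : Fintype (Subgroup G) := Fintype.ofFinite _
  have hfW : Finite (Wc G r) := Finite.of_equiv _ SemidirectProduct.equivProd.symm
  let _ : Fintype (Subgroup (Wc G r)) := Fintype.ofFinite _
  obtain ⟨f, hf⟩ := (hADJ (Polynomial ℤ) (Subgroup (Wc G r))).1 F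
  obtain ⟨f₁, hf₁⟩ := (hADJ (Polynomial ℤ) (Subgroup G)).1 F₁
  rw [cs_eq _ _ F f hf, cs_eq _ _ F₁ f₁ hf₁, ← part_a (p := p) hADJ F f F₁ f₁ hf hf₁ hF]
  have hb := part_b F f Φ hf hΦ
  let T : Subgroup G → Polynomial ℤ := fun L =>
    ∑ K : {K : Subgroup (Wc G r) // ∃ x ∈ K, x.right ≠ 1}, if Q17.DM.cmp 1 K.1 = L then f K.1
      else 0
  have hT : ∀ L, (fun L => ((Nat.card G) ^ (r - 1)) • Φ L) L = ∑ L', if L' ≤ L then T L'
      else 0 := by
    intro L
    change ((Nat.card G) ^ (r - 1)) • Φ L = _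
    rw [hb L]
    have h1 : ∀ L', (if L' ≤ L then T L' else 0) =
        ∑ K : {K : Subgroup (Wc G r) // ∃ x ∈ K, x.right ≠ 1},
          if Q17.DM.cmp 1 K.1 = L' then (if L' ≤ L then f K.1 else 0) else 0 := by
      intro L'
      by_cases h : L' ≤ L
      · simp only [if_pos h]
        rfl
      · simp only [if_neg h, ite_self, Finset.sum_const_zero]
    simp only [h1]
    rw [Finset.sum_comm]
    refine Finset.sum_congr rfl fun K _ => ?_
    rw [Finset.sum_ite_eq, if_pos (Finset.mem_univ _)]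
  have hcs := cs_eq (p := p) ⊤ ⊥ (fun L => ((Nat.card G) ^ (r - 1)) • Φ L) T hT
  rw [cs_smul] at hcs
  rw [hcs]
  have hsplit : ∑ K, f K * ((WZ p ⊤ ⊥ K : ℤ) : Polynomial ℤ) =
      (∑ K : {K : Subgroup (Wc G r) // ∀ x ∈ K, x.right = 1},
        f K.1 * ((WZ p ⊤ ⊥ K.1 : ℤ) : Polynomial ℤ)) +
      ∑ K : {K : Subgroup (Wc G r) // ∃ x ∈ K, x.right ≠ 1},
        f K.1 * ((WZ p ⊤ ⊥ K.1 : ℤ) : Polynomial ℤ) := by
    rw [sum_sub (fun K : Subgroup (Wc G r) => ∀ x ∈ K, x.right = 1)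
        (fun K => f K * ((WZ p ⊤ ⊥ K : ℤ) : Polynomial ℤ)),
      sum_sub (fun K : Subgroup (Wc G r) => ∃ x ∈ K, x.right ≠ 1)
        (fun K => f K * ((WZ p ⊤ ⊥ K : ℤ) : Polynomial ℤ)), ← Finset.sum_add_distrib]
    refine Finset.sum_congr rfl fun K _ => ?_
    by_cases h : ∀ x ∈ K, x.right = 1
    · rw [if_pos h, if_neg, add_zero]
      rintro ⟨x, hx, hx1⟩
      exact hx1 (h x hx)
    · rw [if_neg h, if_pos, zero_add]
      by_contra h'
      apply h
      intro x hx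
      by_contra h''
      exact h' ⟨x, hx, h''⟩
  rw [hsplit]
  refine congrArg₂ (· + ·) ?_ ?_
  · refine Finset.sum_congr rfl fun K _ => ?_
    rw [hM p r hpr G K.1 K.2, Int.cast_prod]
  · have h1 : ∀ L, T L * ((WZ p ⊤ ⊥ L : ℤ) : Polynomial ℤ) =
        ∑ K : {K : Subgroup (Wc G r) // ∃ x ∈ K, x.right ≠ 1},
          if Q17.DM.cmp 1 K.1 = L then f K.1 * ((WZ p ⊤ ⊥ L : ℤ) : Polynomial ℤ) else 0 := by
      intro L
      rw [Finset.sum_mul]
      refine Finset.sum_congr rfl fun K _ => ?_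
      rw [ite_mul, zero_mul]
    simp only [h1]
    rw [Finset.sum_comm]
    refine Finset.sum_congr rfl fun K _ => ?_
    rw [Finset.sum_ite_eq, if_pos (Finset.mem_univ _), hN p r hpr G K.1 K.2]

end Pool.Agent.Q14.DM
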