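import Pool.Agent.Q14.DM.Cdn5

/-! Job CDN of project DM (helper17): the numbers of characters of the stabilisers. -/

set_option autoImplicit false

open scoped Classical

noncomputable section

namespace Pool.Agent.Q14.DM

open Pool.Agent.H254R3.IN hiding NN
open Pool.Agent.Q17.WR Pool.Agent.Q17.AM Pool.Agent.Q162.AM Pool.Agent.Q17.DM
open Pool.Agent.Helper884

/-- Invariance under conjugation. -/
theorem pol_conj (p : ℕ) {G : Type} [Group G] [Fintype G] (O : ValuationSubring ℂ)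
    (B : Set (G → ℂ)) (L : Subgroup G) (g : G) :
    pol p O B Set.univ (L.map (MulAut.conj g).toMonoidHom) = pol p O B Set.univ L := by
  let e : L ≃* L.map (MulAut.conj g).toMonoidHom :=
    L.equivMapOfInjective _ (MulAut.conj g).injective
  have he : ∀ y : L, ((e y : L.map (MulAut.conj g).toMonoidHom) : G) = g * y * g⁻¹ := fun y => rfl
  rw [pol_eq, pol_eq, ← Nat.card_congr e.toEquiv]
  congr 1
  symm
  refine TT_congr p e _ _ fun χ => ?_
  have hs : ∀ x : G, ∑ᶠ y : {y : L // IsConj x (y : G)}, χ (e y.1) / χ (e 1) =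
      ∑ᶠ y : {y : L.map (MulAut.conj g).toMonoidHom // IsConj x (y : G)}, χ y / χ 1 := by
    intro x
    have hc : ∀ y : L, IsConj x (y : G) ↔
        IsConj x ((e y : L.map (MulAut.conj g).toMonoidHom) : G) := by
      intro y
      have h1 : IsConj (y : G) ((e y : L.map (MulAut.conj g).toMonoidHom) : G) := by
        rw [isConj_iff, he]
        exact ⟨g, rfl⟩
      exact ⟨fun h => h.trans h1, fun h => h.trans h1.symm⟩
    let E : {y : L // IsConj x (y : G)} ≃
        {y : L.map (MulAut.conj g).toMonoidHom // IsConj x (y : G)} :=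
      e.toEquiv.subtypeEquiv hc
    rw [← finsum_comp_equiv E]
    refine finsum_congr fun y => ?_
    rw [map_one]
    rfl
  constructor
  · rintro ⟨h1, h2⟩
    refine ⟨Q222.TC.irr_comp e h1, fun χ' hχ' x hx => ?_⟩
    rw [hs x]
    exact h2 χ' hχ' x hx
  · rintro ⟨h1, h2⟩
    refine ⟨?_, fun χ' hχ' x hx => ?_⟩
    · have h3 := Q222.TC.irr_comp e.symm h1
      have h4 : (fun y => χ (e (e.symm y))) = χ := by
        funext y
        rw [MulEquiv.apply_symm_apply]
      rw [h4] at h3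
      exact h3
    · rw [← hs x]
      exact h2 χ' hχ' x hx

theorem Bi_eq {G : Type} [Group G] {r : ℕ} [Fact r.Prime] (m : Cy r → G) (L : Subgroup G) :
    Bi (Lw m L) = Pw (fun ω => L.map (MulAut.conj (m ω)).toMonoidHom) := by
  ext x
  constructor
  · rintro ⟨h1, h2⟩
    have hx : x.right = 1 := h2
    refine ⟨hx, fun ω => ?_⟩
    have h3 := h1 ω
    rw [hx, inv_one, one_mul] at h3
    refine ⟨_, h3, ?_⟩
    change m ω * ((m ω)⁻¹ * x.left ω * m ω) * (m ω)⁻¹ = x.left ω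
    group
  · rintro ⟨hx, h1⟩
    refine ⟨fun ω => ?_, hx⟩
    obtain ⟨y, hy, hy1⟩ := h1 ω
    have hy2 : m ω * y * (m ω)⁻¹ = x.left ω := hy1
    rw [hx, inv_one, one_mul, ← hy2]
    have h2 : (m ω)⁻¹ * (m ω * y * (m ω)⁻¹) * m ω = y := by group
    rw [h2]
    exact hy

/-- The characters of `Lw m L`. -/
theorem LX_iff (hC : S_CLS) {p r : ℕ} [Fact p.Prime] [Fact r.Prime] (hpr : p ≠ r) {G : Type}
    [Group G] [Fintype G] {O : ValuationSubring ℂ} (hp : (p : ℂ) ∈ O.nonunits)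
    {B : Set (G → ℂ)} (hB : IsBlock O B) (L : Subgroup G) [Fintype L] (m : Cy r → G)
    (χ : Wc L r → ℂ) : χ ∈ LX (r := r) (In O B Set.univ L) ↔
      (fun x => χ (eW m L x)) ∈ In O (LX (r := r) B) {x | x.right = 1} (Lw m L) := by
  obtain ⟨c1, c2, c3, -, -, -⟩ := hC L r
  have k1 : ∀ f : Cy r → L → ℂ, (∀ ω, IsIrr (f ω)) → Ncn f →
      ((fun x => nch f (eW m L x)) ∈ In O (LX (r := r) B) {x | x.right = 1} (Lw m L) ↔
        ∀ ω, f ω ∈ In O B Set.univ L) := fun f hf hn =>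
    ind_main hpr hp hB L m f hf (nch f) (c1 f hf hn)
      (fun x n h => sum_nch (Subtype.val : L → G) f x n h)
  have k2 : ∀ (θ : L → ℂ) (l : Cy r →* ℂˣ), IsIrr θ →
      ((fun x => cch θ l (eW m L x)) ∈ In O (LX (r := r) B) {x | x.right = 1} (Lw m L) ↔
        ∀ _ω : Cy r, θ ∈ In O B Set.univ L) := fun θ l hθ =>
    ind_main hpr hp hB L m (fun _ => θ) (fun _ => hθ) (cch θ l) (c2 θ hθ l)
      (fun x n h => sum_cch (Subtype.val : L → G) θ l x n h)
  constructor
  · rintro (⟨f, hf, hn, rfl⟩ | ⟨θ, hθ, l, rfl⟩)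
    · exact (k1 f (fun ω => (hf ω).1) hn).2 hf
    · exact (k2 θ l hθ.1).2 (fun _ => hθ)
  · intro h
    have h1 := Q222.TC.irr_comp (eW m L).symm h.1
    have h2 : (fun y => χ (eW m L ((eW m L).symm y))) = χ := by
      funext y
      rw [MulEquiv.apply_symm_apply]
    rw [h2] at h1
    rcases c3 χ h1 with ⟨f, hf, hn, rfl⟩ | ⟨θ, hθ, l, rfl⟩
    · exact Or.inl ⟨f, (k1 f hf hn).1 h, hn, rfl⟩
    · exact Or.inr ⟨θ, (k2 θ l hθ).1 h 1, l, rfl⟩

/-- Job CDN: the numbers for the subgroups `Lw m L`. -/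
theorem t_CDN : S_ZPR → S_CLS → S_CDM → S_CDN := by
  intro _ hC hM p r _ _ hpr G _ _ O hp B hB hPos L m
  have hr : r.Prime := Fact.out
  have hfW : Finite (Wc G r) := Finite.of_equiv _ SemidirectProduct.equivProd.symm
  let _ : Fintype L := Fintype.ofFinite _
  rw [Bi_eq m L, hM p r hpr G O hp B hB hPos]
  have h1 : ∀ ω : Cy r, pol p O B Set.univ (L.map (MulAut.conj (m ω)).toMonoidHom) =
      pol p O B Set.univ L := fun ω => pol_conj p O B L (m ω)
  rw [Finset.prod_congr rfl fun ω _ => h1 ω, Finset.prod_const, Finset.card_univ, fc_Cy,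
    pol_eq, pol_eq, TT_congr p (eW m L) _ (LX (r := r) (In O B Set.univ L))
      (fun χ => LX_iff hC hpr hp hB L m χ), Nat.card_congr (eW m L).toEquiv, card_Wc]
  have h2 := TT_LX (r := r) hC hpr (In O B Set.univ L) (fun χ h => h.1)
  have h3 : ((r ^ 2 - 1 : ℕ) : Polynomial ℤ) = (r : Polynomial ℤ) ^ 2 - 1 := by
    rw [Nat.cast_sub (Nat.one_le_pow _ _ hr.pos)]
    push_cast
    rfl
  have h4 : (Nat.card L : Polynomial ℤ) ^ (r - 1) * (Nat.card L : Polynomial ℤ) =
      (Nat.card L : Polynomial ℤ) ^ r := by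
    rw [← pow_succ, Nat.sub_add_cancel hr.pos]
  simp only [nsmul_eq_mul, map_mul, map_natCast, mul_pow, Nat.cast_mul, Nat.cast_pow, h3]
  generalize TT p (LX (r := r) (In O B Set.univ L)) = T' at h2 ⊢
  generalize TT p (In O B Set.univ L) = T at h2 ⊢
  generalize Polynomial.expand ℤ r T = E at h2 ⊢
  generalize (Nat.card L : Polynomial ℤ) = a at h4 ⊢
  rw [← h4]
  linear_combination (a ^ (r - 1) * a) * h2

end Pool.Agent.Q14.DM
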