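import Pool.Agent.Q17.DM.Stm
import Pool.Agent.Q162.AM.NUM

/-! Job CDN of project DM (helper17), part 1: sums over the classes of the base group. -/

set_option autoImplicit false

open scoped Classical

noncomputable section

namespace Pool.Agent.Q14.DM

open Pool.Agent.H254R3.IN hiding NN
open Pool.Agent.Q17.WR Pool.Agent.Q17.AM Pool.Agent.Q162.AM

variable {G : Type} [Group G] {r : ℕ} [Fact r.Prime]

/-- the normalised sum of a function over the elements mapped to a class -/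
def V {L : Type} [Group L] [Fintype L] (i : L → G) (θ : L → ℂ) (g : G) : ℂ :=
  ∑ y : L, if IsConj g (i y) then θ y / θ 1 else 0

theorem sum_class (x : Cy r → G) : ∃ n : ℕ, (n = 1 ∨ n = r) ∧
    ∀ (L : Type) [Fintype L] (i : L → G) (F : (Cy r → L) → ℂ),
    (r : ℂ) * ∑ l : Cy r → L, (if ∃ a : Cy r, ∀ ω, IsConj (x (a * ω)) (i (l ω)) then F l else 0) =
      n * ∑ a : Cy r, ∑ l : Cy r → L, if ∀ ω, IsConj (x (a * ω)) (i (l ω)) then F l else 0 := by
  by_cases hH : ∃ a : Cy r, a ≠ 1 ∧ ∀ ω, IsConj (x (a * ω)) (x ω)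
  · obtain ⟨a, ha, hc⟩ := hH
    refine ⟨1, Or.inl rfl, ?_⟩
    have hk : ∀ (k : ℕ) (ω : Cy r), IsConj (x (a ^ k * ω)) (x ω) := by
      intro k
      induction k with
      | zero => intro ω; rw [pow_zero, one_mul]
      | succ k ih =>
        intro ω
        rw [pow_succ, mul_assoc]
        exact (ih _).trans (hc ω)
    have hall : ∀ (b ω : Cy r), IsConj (x (b * ω)) (x ω) := by
      intro b ω
      obtain ⟨k, hk'⟩ := (pw_bij a ha).2 b
      rw [← hk']
      exact hk k ω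
    intro L _ i F
    have h1 : ∀ b : Cy r, ∑ l : Cy r → L,
        (if ∀ ω, IsConj (x (b * ω)) (i (l ω)) then F l else 0) =
        ∑ l : Cy r → L, (if ∃ a : Cy r, ∀ ω, IsConj (x (a * ω)) (i (l ω)) then F l else 0) := by
      intro b
      refine Finset.sum_congr rfl fun l _ => ?_
      have h2 : (∀ ω, IsConj (x (b * ω)) (i (l ω))) ↔
          ∃ a : Cy r, ∀ ω, IsConj (x (a * ω)) (i (l ω)) := by
        constructor
        · intro h
          exact ⟨b, h⟩
        · rintro ⟨c, hc⟩ ω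
          exact ((hall b ω).trans (hall c ω).symm).trans (hc ω)
      by_cases h3 : ∀ ω, IsConj (x (b * ω)) (i (l ω))
      · rw [if_pos h3, if_pos (h2.1 h3)]
      · rw [if_neg h3, if_neg (fun h => h3 (h2.2 h))]
    rw [Finset.sum_congr rfl fun b _ => h1 b, Finset.sum_const, Finset.card_univ, fc_Cy,
      nsmul_eq_mul, Nat.cast_one, one_mul]
  · push Not at hH
    refine ⟨r, Or.inr rfl, ?_⟩
    intro L _ i F
    rw [Finset.sum_comm]
    congr 1
    refine Finset.sum_congr rfl fun l _ => ?_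
    by_cases h3 : ∃ a : Cy r, ∀ ω, IsConj (x (a * ω)) (i (l ω))
    · rw [if_pos h3]
      obtain ⟨a, ha⟩ := h3
      rw [Finset.sum_eq_single a, if_pos ha]
      · intro b _ hb
        rw [if_neg]
        intro hb'
        have h1 : b⁻¹ * a ≠ 1 := by
          intro h1
          exact hb (inv_mul_eq_one.1 h1)
        obtain ⟨ω, hω⟩ := hH _ h1
        apply hω
        have h2 := (ha (b⁻¹ * ω)).trans (hb' (b⁻¹ * ω)).symm
        rw [mul_inv_cancel_left] at h2
        have h3 : b⁻¹ * a * ω = a * (b⁻¹ * ω) := by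
          rw [mul_comm b⁻¹ a, mul_assoc]
        rw [h3]
        exact h2
      · intro h
        exact absurd (Finset.mem_univ _) h
    · rw [if_neg h3]
      symm
      refine Finset.sum_eq_zero fun a _ => ?_
      rw [if_neg]
      intro h
      exact h3 ⟨a, h⟩

theorem sum_box {L : Type} [Group L] [Fintype L] (i : L → G) (f : Cy r → L → ℂ)
    (x : Cy r → G) :
    ∑ l : Cy r → L, (if ∀ ω, IsConj (x ω) (i (l ω)) then prf f l / ∏ ω, f ω 1 else 0) =
      ∏ ω, V i (f ω) (x ω) := by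
  unfold V
  rw [Finset.prod_univ_sum, Fintype.piFinset_univ]
  refine Finset.sum_congr rfl fun l _ => ?_
  rw [Finset.prod_ite_zero]
  by_cases h : ∀ ω, IsConj (x ω) (i (l ω))
  · rw [if_pos h, if_pos (fun ω _ => h ω)]
    unfold prf
    rw [Finset.prod_div_distrib]
  · rw [if_neg h, if_neg (fun h' => h fun ω => h' ω (Finset.mem_univ _))]

theorem prf_shf_one {L : Type} [Group L] (f : Cy r → L → ℂ) (b : Cy r) :
    ∏ ω, shf f b ω 1 = ∏ ω, f ω 1 :=
  Equiv.prod_comp (Equiv.mulLeft b) (fun ω => f ω 1)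

theorem sum_nch {L : Type} [Group L] [Fintype L] (i : L → G) (f : Cy r → L → ℂ)
    (x : Cy r → G) (n : ℕ)
    (hn : ∀ F : (Cy r → L) → ℂ, (r : ℂ) * ∑ l : Cy r → L,
      (if ∃ a : Cy r, ∀ ω, IsConj (x (a * ω)) (i (l ω)) then F l else 0) =
      n * ∑ a : Cy r, ∑ l : Cy r → L, if ∀ ω, IsConj (x (a * ω)) (i (l ω)) then F l else 0) :
    (r : ℂ) * ∑ l : Cy r → L, (if ∃ a : Cy r, ∀ ω, IsConj (x (a * ω)) (i (l ω)) then
      nch f (⟨l, 1⟩ : Wc L r) / nch f (1 : Wc L r) else 0) =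
      n * ∑ b : Cy r, ∏ ω, V i (f (b * ω)) (x ω) := by
  have hr0 : (r : ℂ) ≠ 0 := Nat.cast_ne_zero.2 (Fact.out : r.Prime).ne_zero
  rw [hn (fun l => nch f (⟨l, 1⟩ : Wc L r) / nch f (1 : Wc L r))]
  congr 1
  have h1 : ∀ a : Cy r, ∑ l : Cy r → L, (if ∀ ω, IsConj (x (a * ω)) (i (l ω)) then
      nch f (⟨l, 1⟩ : Wc L r) / nch f (1 : Wc L r) else 0) =
      (r : ℂ)⁻¹ * ∑ b : Cy r, ∏ ω, V i (f (b * ω)) (x (a * ω)) := by
    intro a
    rw [Finset.mul_sum]
    have h2 : ∀ b : Cy r, ∏ ω, V i (f (b * ω)) (x (a * ω)) = ∑ l : Cy r → L,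
        (if ∀ ω, IsConj (x (a * ω)) (i (l ω)) then prf (shf f b) l / ∏ ω, f ω 1 else 0) := by
      intro b
      have h3 := sum_box i (shf f b) (fun ω => x (a * ω))
      rw [prf_shf_one] at h3
      exact h3.symm
    have h5 : ∑ b : Cy r, (r : ℂ)⁻¹ * ∏ ω, V i (f (b * ω)) (x (a * ω)) =
        ∑ b : Cy r, ∑ l : Cy r → L, (r : ℂ)⁻¹ *
          (if ∀ ω, IsConj (x (a * ω)) (i (l ω)) then prf (shf f b) l / ∏ ω, f ω 1 else 0) :=
      Finset.sum_congr rfl fun b _ => by rw [h2 b, Finset.mul_sum]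
    rw [h5, Finset.sum_comm]
    refine Finset.sum_congr rfl fun l _ => ?_
    by_cases h : ∀ ω, IsConj (x (a * ω)) (i (l ω))
    · simp only [if_pos h]
      rw [nch_one, nch_base, Finset.sum_div]
      refine Finset.sum_congr rfl fun b _ => ?_
      rw [← div_div, div_eq_mul_inv (prf (shf f b) l) (r : ℂ), mul_comm _ (r : ℂ)⁻¹, mul_div_assoc]
    · simp only [if_neg h, mul_zero, Finset.sum_const_zero]
  rw [Finset.sum_congr rfl fun a _ => h1 a, ← Finset.mul_sum]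
  have h4 : ∀ a : Cy r, ∑ b : Cy r, ∏ ω, V i (f (b * ω)) (x (a * ω)) =
      ∑ b : Cy r, ∏ ω, V i (f (b * ω)) (x ω) := by
    intro a
    rw [← Equiv.sum_comp (Equiv.mulRight a) (fun b => ∏ ω, V i (f (b * ω)) (x (a * ω)))]
    refine Finset.sum_congr rfl fun b _ => ?_
    have h6 : ∀ ω : Cy r, V i (f (Equiv.mulRight a b * ω)) (x (a * ω)) =
        (fun ω => V i (f (b * ω)) (x ω)) (Equiv.mulLeft a ω) := by
      intro ω
      change V i (f (b * a * ω)) (x (a * ω)) = V i (f (b * (a * ω))) (x (a * ω))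
      rw [mul_assoc]
    rw [Finset.prod_congr rfl fun ω _ => h6 ω]
    exact Equiv.prod_comp (Equiv.mulLeft a) (fun ω => V i (f (b * ω)) (x ω))
  rw [Finset.sum_congr rfl fun a _ => h4 a, Finset.sum_const, Finset.card_univ, fc_Cy,
    nsmul_eq_mul, inv_mul_cancel_left₀ hr0]

theorem sum_cch {L : Type} [Group L] [Fintype L] (i : L → G) (θ : L → ℂ) (c : Cy r →* ℂˣ)
    (x : Cy r → G) (n : ℕ)
    (hn : ∀ F : (Cy r → L) → ℂ, (r : ℂ) * ∑ l : Cy r → L,
      (if ∃ a : Cy r, ∀ ω, IsConj (x (a * ω)) (i (l ω)) then F l else 0) =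
      n * ∑ a : Cy r, ∑ l : Cy r → L, if ∀ ω, IsConj (x (a * ω)) (i (l ω)) then F l else 0) :
    (r : ℂ) * ∑ l : Cy r → L, (if ∃ a : Cy r, ∀ ω, IsConj (x (a * ω)) (i (l ω)) then
      cch θ c (⟨l, 1⟩ : Wc L r) / cch θ c (1 : Wc L r) else 0) =
      n * ∑ _b : Cy r, ∏ ω, V i θ (x ω) := by
  rw [hn (fun l => cch θ c (⟨l, 1⟩ : Wc L r) / cch θ c (1 : Wc L r))]
  congr 1
  refine Finset.sum_congr rfl fun a _ => ?_
  have h1 := sum_box i (fun _ => θ) (fun ω => x (a * ω))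
  rw [cch_one]
  simp only [cch_base]
  rw [h1]
  exact Equiv.prod_comp (Equiv.mulLeft a) (fun ω => V i θ (x ω))

end Pool.Agent.Q14.DM
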