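import Pool.Agent.Q14.DM.Cdn1
import Pool.Agent.H254R3.IN.PI

/-! Job CDN of project DM (helper17), part 2: reduction modulo the maximal ideal. -/

set_option autoImplicit false

open scoped Classical

noncomputable section

namespace Pool.Agent.Q14.DM

open Pool.Agent.H254R3.IN hiding NN
open Pool.Agent.Q17.WR Pool.Agent.Q17.AM Pool.Agent.Q162.AM

section fin

theorem fsum_sub {H : Type} [Fintype H] (P : H → Prop) (F : H → ℂ) :
    ∑ᶠ y : {y : H // P y}, F y.1 = ∑ y : H, if P y then F y else 0 := by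
  rw [finsum_eq_sum_of_fintype, ← Finset.sum_filter]
  refine (Finset.sum_subtype _ (fun x => ?_) _).symm
  rw [Finset.mem_filter]
  exact ⟨fun h => h.2, fun h => ⟨Finset.mem_univ _, h⟩⟩

theorem V_mem {Γ : Type} [Group Γ] (O : ValuationSubring ℂ) (L : Subgroup Γ) [Fintype L]
    {θ : L → ℂ} (hθ : IsIrr θ) (g : Γ) : V (Subtype.val : L → Γ) θ g ∈ O := by
  have hcl : IsCl (fun y : L => if IsConj g (y : Γ) then (1 : ℂ) else 0) := by
    intro a y
    have h1 : IsConj (a : Γ) ((y * a * y⁻¹ : L) : Γ) := by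
      rw [isConj_iff]
      exact ⟨y, rfl⟩
    by_cases h : IsConj g (a : Γ)
    · simp only [if_pos h, if_pos (h.trans h1)]
    · simp only [if_neg h, if_neg (fun h' : IsConj g ((y * a * y⁻¹ : L) : Γ) =>
        h (h'.trans h1.symm))]
  have hO : ∀ y : L, (fun y : L => if IsConj g (y : Γ) then (1 : ℂ) else 0) y ∈ O := by
    intro y
    by_cases h : IsConj g (y : Γ)
    · simp only [if_pos h]
      exact O.one_mem
    · simp only [if_neg h]
      exact O.zero_mem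
  have h2 := (red_Om hθ hcl hO).1
  have h3 : Om (fun y : L => if IsConj g (y : Γ) then (1 : ℂ) else 0) θ =
      V (Subtype.val : L → Γ) θ g := by
    unfold Om V
    rw [Finset.sum_div]
    refine Finset.sum_congr rfl fun y _ => ?_
    by_cases h : IsConj g (y : Γ)
    · simp only [if_pos h, one_mul]
    · simp only [if_neg h, zero_mul, zero_div]
  rw [h3] at h2
  exact h2

theorem V_one {Γ : Type} [Group Γ] (L : Subgroup Γ) [Fintype L]
    {θ : L → ℂ} (hθ : θ 1 ≠ 0) : V (Subtype.val : L → Γ) θ 1 = 1 := by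
  unfold V
  rw [Finset.sum_eq_single (1 : L)]
  · rw [if_pos, div_self hθ]
    exact IsConj.refl _
  · intro y _ hy
    rw [if_neg]
    intro h
    apply hy
    rw [isConj_one_right] at h
    exact Subtype.ext h
  · intro h
    exact absurd (Finset.mem_univ _) h

end fin

variable {G : Type} [Group G] {r : ℕ} [Fact r.Prime]

theorem omega_W [Fintype G] (x : Cy r → G) : ∃ n : ℕ, (n = 1 ∨ n = r) ∧
    (∀ (L : Type) [Fintype L] (i : L → G) (F : (Cy r → L) → ℂ),
    (r : ℂ) * ∑ l : Cy r → L, (if ∃ a : Cy r, ∀ ω, IsConj (x (a * ω)) (i (l ω)) then F l else 0) =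
      n * ∑ a : Cy r, ∑ l : Cy r → L, if ∀ ω, IsConj (x (a * ω)) (i (l ω)) then F l else 0) ∧
    (∀ f : Cy r → G → ℂ, (r : ℂ) * omega (nch f) (⟨x, 1⟩ : Wc G r) =
      n * ∑ a : Cy r, ∏ ω, omega (f (a * ω)) (x ω)) ∧
    ∀ (θ : G → ℂ) (l : Cy r →* ℂˣ), omega (cch θ l) (⟨x, 1⟩ : Wc G r) =
      n * ∏ ω, omega θ (x ω) := by
  obtain ⟨n, hn, hs⟩ := sum_class x
  obtain ⟨n', hc, -, h1, h2⟩ := (t_CCL G r).1 (⟨x, 1⟩ : Wc G r) rfl
  have hr0 : (r : ℂ) ≠ 0 := Nat.cast_ne_zero.2 (Fact.out : r.Prime).ne_zero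
  have hP : (∏ ω : Cy r, Nat.card {y : G // IsConj (x ω) y}) ≠ 0 := by
    rw [Finset.prod_ne_zero_iff]
    intro ω _
    exact (card_class_pos (x ω)).ne'
  have e : {y : Wc G r // IsConj (⟨x, 1⟩ : Wc G r) y} ≃
      {m : Cy r → G // ∃ a : Cy r, ∀ ω, IsConj (x (a * ω)) (m ω)} :=
    { toFun := fun y => ⟨y.1.left, ((cl1 (⟨x, 1⟩ : Wc G r) y.1 rfl).1 y.2).2⟩
      invFun := fun m => ⟨⟨m.1, 1⟩, (cl1 (⟨x, 1⟩ : Wc G r) _ rfl).2 ⟨rfl, m.2⟩⟩
      left_inv := fun y => by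
        apply Subtype.ext
        exact SemidirectProduct.ext rfl ((cl1 (⟨x, 1⟩ : Wc G r) y.1 rfl).1 y.2).1.symm
      right_inv := fun m => rfl }
  have h3 := hs G id (fun _ => 1)
  have h4 : ∑ l : Cy r → G, (if ∃ a : Cy r, ∀ ω, IsConj (x (a * ω)) (id (l ω)) then (1 : ℂ)
      else 0) = (Nat.card {y : Wc G r // IsConj (⟨x, 1⟩ : Wc G r) y} : ℂ) := by
    rw [Nat.card_congr e, Nat.card_eq_fintype_card, Fintype.card_subtype, Finset.card_filter,
      Nat.cast_sum]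
    refine Finset.sum_congr rfl fun m _ => ?_
    push_cast
    rfl
  have h5 : ∀ a : Cy r, ∑ l : Cy r → G, (if ∀ ω, IsConj (x (a * ω)) (id (l ω)) then (1 : ℂ)
      else 0) = ((∏ ω : Cy r, Nat.card {y : G // IsConj (x ω) y} : ℕ) : ℂ) := by
    intro a
    rw [← card_K (⟨x, 1⟩ : Wc G r) a, Nat.card_eq_fintype_card, Fintype.card_subtype,
      Finset.card_filter, Nat.cast_sum]
    refine Finset.sum_congr rfl fun m _ => ?_
    push_cast
    rfl
  rw [h4, Finset.sum_congr rfl fun a _ => h5 a, Finset.sum_const, Finset.card_univ, fc_Cy, hc,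
    nsmul_eq_mul] at h3
  have h6 : n' = n := by
    have h7 : ((r * (n' * ∏ ω : Cy r, Nat.card {y : G // IsConj (x ω) y}) : ℕ) : ℂ) =
        ((n * (r * ∏ ω : Cy r, Nat.card {y : G // IsConj (x ω) y}) : ℕ) : ℂ) := by
      push_cast
      push_cast at h3
      exact h3
    have h8 := Nat.cast_injective (R := ℂ) h7
    have h9 : r * (∏ ω : Cy r, Nat.card {y : G // IsConj (x ω) y}) ≠ 0 :=
      mul_ne_zero (Fact.out : r.Prime).ne_zero hP
    have h10 : n' * (r * (∏ ω : Cy r, Nat.card {y : G // IsConj (x ω) y})) =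
        n * (r * (∏ ω : Cy r, Nat.card {y : G // IsConj (x ω) y})) := by
      rw [← h8]
      ring
    exact Nat.eq_of_mul_eq_mul_right (Nat.pos_of_ne_zero h9) h10
  subst h6
  exact ⟨n', hn, hs, h1, h2⟩

/-- The product trick. -/
theorem trick {κ : Type} [Field κ] (v : Cy r → G → κ) (w : G → κ) (hv : ∀ ω, v ω 1 = 1)
    (hw : w 1 = 1) (hr : (r : κ) ≠ 0)
    (h : ∀ x : Cy r → G, ∑ b : Cy r, ∏ ω, v (b * ω) (x ω) = r * ∏ ω, w (x ω))
    (ω₀ : Cy r) (g : G) : v ω₀ g = w g := by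
  let c : κ := - v ω₀ g
  let u : Bool → G := fun t => if t then g else 1
  let co : Bool → κ := fun t => if t then 1 else c
  have h1 : ∀ v' : Cy r → G → κ, (∀ ω, v' ω 1 = 1) →
      ∑ x : Cy r → Bool, (∏ ω, co (x ω)) * ∏ ω, v' ω (u (x ω)) = ∏ ω, (v' ω g + c) := by
    intro v' hv'
    have h2 : ∀ ω, v' ω g + c = ∑ t : Bool, co t * v' ω (u t) := by
      intro ω
      rw [Fintype.sum_bool]
      simp only [co, u, if_true]
      rw [one_mul]
      simp [hv']
    rw [Finset.prod_congr rfl fun ω _ => h2 ω, Finset.prod_univ_sum, Fintype.piFinset_univ]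
    refine Finset.sum_congr rfl fun x _ => ?_
    rw [Finset.prod_mul_distrib]
  have h3 : ∑ x : Cy r → Bool, (∏ ω, co (x ω)) * ∑ b : Cy r, ∏ ω, v (b * ω) (u (x ω)) =
      ∑ x : Cy r → Bool, (∏ ω, co (x ω)) * (r * ∏ ω, w (u (x ω))) :=
    Finset.sum_congr rfl fun x _ => by rw [h (fun ω => u (x ω))]
  have h4 : ∑ x : Cy r → Bool, (∏ ω, co (x ω)) * ∑ b : Cy r, ∏ ω, v (b * ω) (u (x ω)) =
      r * ∏ ω, (v ω g + c) := by
    have h5 : ∑ x : Cy r → Bool, (∏ ω, co (x ω)) * ∑ b : Cy r, ∏ ω, v (b * ω) (u (x ω)) =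
        ∑ b : Cy r, ∑ x : Cy r → Bool, (∏ ω, co (x ω)) * ∏ ω, v (b * ω) (u (x ω)) := by
      rw [Finset.sum_comm]
      exact Finset.sum_congr rfl fun x _ => Finset.mul_sum _ _ _
    rw [h5]
    have h6 : ∀ b : Cy r, ∑ x : Cy r → Bool, (∏ ω, co (x ω)) * ∏ ω, v (b * ω) (u (x ω)) =
        ∏ ω, (v ω g + c) := by
      intro b
      rw [h1 (fun ω => v (b * ω)) (fun ω => hv _)]
      exact Equiv.prod_comp (Equiv.mulLeft b) (fun ω => v ω g + c)
    rw [Finset.sum_congr rfl fun b _ => h6 b, Finset.sum_const, Finset.card_univ, fc_Cy,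
      nsmul_eq_mul]
  have h7 : ∑ x : Cy r → Bool, (∏ ω, co (x ω)) * (r * ∏ ω, w (u (x ω))) =
      r * ∏ _ω : Cy r, (w g + c) := by
    rw [← h1 (fun _ => w) (fun _ => hw), Finset.mul_sum]
    exact Finset.sum_congr rfl fun x _ => mul_left_comm _ _ _
  have h8 : ∏ _ω : Cy r, (w g + c) = 0 := by
    have h9 : (r : κ) * ∏ ω, (v ω g + c) = r * ∏ _ω : Cy r, (w g + c) := by
      rw [← h4, h3, h7]
    have h10 : ∏ ω, (v ω g + c) = 0 :=
      Finset.prod_eq_zero (Finset.mem_univ ω₀) (by simp only [c]; ring)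
    rw [h10, mul_zero] at h9
    rcases mul_eq_zero.1 h9.symm with h11 | h11
    · exact absurd h11 hr
    · exact h11
  obtain ⟨_, _, h12⟩ := Finset.prod_eq_zero_iff.1 h8
  simp only [c] at h12
  rw [← sub_eq_add_neg, sub_eq_zero] at h12
  exact h12.symm

end Pool.Agent.Q14.DM
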