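import Pool.Agent.Q14.DM.Cdn2
import Pool.Agent.Q222.TC.TBC

/-! Job CDN of project DM (helper17), part 3: the characters with the given central character. -/

set_option autoImplicit false

open scoped Classical

noncomputable section

namespace Pool.Agent.Q14.DM

open Pool.Agent.H254R3.IN hiding NN
open Pool.Agent.Q17.WR Pool.Agent.Q17.AM Pool.Agent.Q162.AM Pool.Agent.Q17.DM

/-- the characters with the given central character -/
def In {Γ : Type} [Group Γ] (O : ValuationSubring ℂ) (B : Set (Γ → ℂ)) (X : Set Γ)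
    (H : Subgroup Γ) : Set (H → ℂ) :=
  {ψ | IsIrr ψ ∧ ∀ χ ∈ B, ∀ x ∈ X,
    omega χ x - ∑ᶠ y : {y : H // IsConj x (y : Γ)}, ψ y / ψ 1 ∈ O.nonunits}

theorem fs_V {Γ : Type} [Group Γ] (H : Subgroup Γ) [Fintype H] (ψ : H → ℂ) (x : Γ) :
    ∑ᶠ y : {y : H // IsConj x (y : Γ)}, ψ y / ψ 1 = V (Subtype.val : H → Γ) ψ x := by
  rw [fsum_sub (fun y : H => IsConj x (y : Γ)) (fun y => ψ y / ψ 1)]
  rfl

theorem fs_mem {Γ : Type} [Group Γ] [Finite Γ] (O : ValuationSubring ℂ) (H : Subgroup Γ)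
    {ψ : H → ℂ} (hψ : IsIrr ψ) (x : Γ) :
    ∑ᶠ y : {y : H // IsConj x (y : Γ)}, ψ y / ψ 1 ∈ O := by
  let _ : Fintype H := Fintype.ofFinite _
  rw [fs_V]
  exact V_mem O H hψ x

theorem red_prod {ι : Type} (O : ValuationSubring ℂ) (s : Finset ι) (f : ι → ℂ)
    (h : ∀ i ∈ s, f i ∈ O) : red O (∏ i ∈ s, f i) = ∏ i ∈ s, red O (f i) := by
  induction s using Finset.induction_on with
  | empty =>
    rw [Finset.prod_empty, Finset.prod_empty]
    exact red_one
  | insert a s ha ih =>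
    have h1 : ∀ i ∈ s, f i ∈ O := fun i hi => h i (Finset.mem_insert_of_mem hi)
    rw [Finset.prod_insert ha, Finset.prod_insert ha,
      red_mul (h a (Finset.mem_insert_self a s)) (prod_mem h1), ih h1]

theorem In_univ {G : Type} [Group G] [Fintype G] {O : ValuationSubring ℂ} {B : Set (G → ℂ)}
    (hB : IsBlock O B) {χ₀ : G → ℂ} (h₀ : χ₀ ∈ B) (L : Subgroup G) [Fintype L] {θ : L → ℂ}
    (hθ : IsIrr θ) :
    θ ∈ In O B Set.univ L ↔
      ∀ g, red O (V (Subtype.val : L → G) θ g) = red O (omega χ₀ g) := by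
  constructor
  · rintro ⟨-, h⟩ g
    have h1 := h χ₀ h₀ g (Set.mem_univ _)
    rw [fs_V, ← red_eq_iff ((hB.irr _ h₀).omega_mem O g) (V_mem O L hθ g)] at h1
    exact h1.symm
  · intro h
    refine ⟨hθ, fun χ hχ x _ => ?_⟩
    rw [fs_V, ← red_eq_iff ((hB.irr _ hχ).omega_mem O x) (V_mem O L hθ x), h x]
    exact hB.red_eq hχ h₀ x

section

variable {G : Type} [Group G] {r : ℕ} [Fact r.Prime]

/-- the isomorphism with the wreath product -/
def eW (m : Cy r → G) (L : Subgroup G) : Lw m L ≃* Wc L r where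
  toFun x := ⟨fun ω => ⟨(m ω)⁻¹ * x.1.left ω * m (x.1.right⁻¹ * ω), x.2 ω⟩, x.1.right⟩
  invFun y := ⟨⟨fun ω => m ω * (y.left ω : G) * (m (y.right⁻¹ * ω))⁻¹, y.right⟩, by
    intro ω
    change (m ω)⁻¹ * (m ω * (y.left ω : G) * (m (y.right⁻¹ * ω))⁻¹) * m (y.right⁻¹ * ω) ∈ L
    have h : (m ω)⁻¹ * (m ω * (y.left ω : G) * (m (y.right⁻¹ * ω))⁻¹) * m (y.right⁻¹ * ω) =
      (y.left ω : G) := by group
    rw [h]
    exact (y.left ω).2⟩
  left_inv x := by
    apply Subtype.ext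
    apply SemidirectProduct.ext
    · funext ω
      change m ω * ((m ω)⁻¹ * x.1.left ω * m (x.1.right⁻¹ * ω)) * (m (x.1.right⁻¹ * ω))⁻¹ =
        x.1.left ω
      group
    · rfl
  right_inv y := by
    apply SemidirectProduct.ext
    · funext ω
      apply Subtype.ext
      change (m ω)⁻¹ * (m ω * (y.left ω : G) * (m (y.right⁻¹ * ω))⁻¹) * m (y.right⁻¹ * ω) =
        (y.left ω : G)
      group
    · rfl
  map_mul' x y := by
    apply SemidirectProduct.ext
    · funext ω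
      apply Subtype.ext
      have h1 : (x.1 * y.1).left ω = x.1.left ω * y.1.left (x.1.right⁻¹ * ω) := rfl
      have h2 : (x.1 * y.1).right⁻¹ * ω = y.1.right⁻¹ * (x.1.right⁻¹ * ω) := by
        rw [SemidirectProduct.mul_right, mul_inv_rev, mul_assoc]
      change (m ω)⁻¹ * (x.1 * y.1).left ω * m ((x.1 * y.1).right⁻¹ * ω) =
        ((m ω)⁻¹ * x.1.left ω * m (x.1.right⁻¹ * ω)) *
          ((m (x.1.right⁻¹ * ω))⁻¹ * y.1.left (x.1.right⁻¹ * ω) *
            m (y.1.right⁻¹ * (x.1.right⁻¹ * ω)))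
      rw [h1, h2]
      group
    · rfl

theorem conj_lf (m : Cy r → G) (L : Subgroup G) (x : Cy r → G) (y : Lw m L) :
    IsConj (⟨x, 1⟩ : Wc G r) (y : Wc G r) ↔ (eW m L y).right = 1 ∧
      ∃ a : Cy r, ∀ ω, IsConj (x (a * ω)) ((eW m L y).left ω : G) := by
  rw [cl1 (⟨x, 1⟩ : Wc G r) y.1 rfl]
  have h1 : (eW m L y).right = y.1.right := rfl
  rw [h1]
  refine and_congr_right fun hy => ?_
  refine exists_congr fun a => forall_congr' fun ω => ?_
  have h2 : IsConj (y.1.left ω) ((eW m L y).left ω : G) := by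
    rw [isConj_iff]
    refine ⟨(m ω)⁻¹, ?_⟩
    change (m ω)⁻¹ * y.1.left ω * ((m ω)⁻¹)⁻¹ = (m ω)⁻¹ * y.1.left ω * m (y.1.right⁻¹ * ω)
    rw [inv_inv, hy, inv_one, one_mul]
  exact ⟨fun h => h.trans h2, fun h => h.trans h2.symm⟩

theorem sum_eW [Fintype G] (m : Cy r → G) (L : Subgroup G) [Fintype L] (x : Cy r → G)
    (χ : Wc L r → ℂ) :
    ∑ᶠ y : {y : Lw m L // IsConj (⟨x, 1⟩ : Wc G r) (y : Wc G r)},
      χ (eW m L y.1) / χ (eW m L 1) =
    ∑ l : Cy r → L, (if ∃ a : Cy r, ∀ ω, IsConj (x (a * ω)) ((l ω : L) : G) then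
      χ (⟨l, 1⟩ : Wc L r) / χ (1 : Wc L r) else 0) := by
  let e : {y : Lw m L // IsConj (⟨x, 1⟩ : Wc G r) (y : Wc G r)} ≃
      {l : Cy r → L // ∃ a : Cy r, ∀ ω, IsConj (x (a * ω)) ((l ω : L) : G)} :=
    { toFun := fun y => ⟨(eW m L y.1).left, ((conj_lf m L x y.1).1 y.2).2⟩
      invFun := fun l => ⟨(eW m L).symm ⟨l.1, 1⟩, (conj_lf m L x _).2 (by
        rw [MulEquiv.apply_symm_apply]
        exact ⟨rfl, l.2⟩)⟩
      left_inv := fun y => by
        apply Subtype.ext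
        change (eW m L).symm ⟨(eW m L y.1).left, 1⟩ = y.1
        rw [MulEquiv.symm_apply_eq]
        exact SemidirectProduct.ext rfl ((conj_lf m L x y.1).1 y.2).1.symm
      right_inv := fun l => by
        apply Subtype.ext
        change (eW m L ((eW m L).symm ⟨l.1, 1⟩)).left = l.1
        rw [MulEquiv.apply_symm_apply] }
  have h1 : ∀ y : {y : Lw m L // IsConj (⟨x, 1⟩ : Wc G r) (y : Wc G r)},
      χ (eW m L y.1) / χ (eW m L 1) =
        (fun l : {l : Cy r → L // ∃ a : Cy r, ∀ ω, IsConj (x (a * ω)) ((l ω : L) : G)} =>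
          χ (⟨l.1, 1⟩ : Wc L r) / χ (1 : Wc L r)) (e y) := by
    intro y
    have h2 : eW m L y.1 = ⟨(eW m L y.1).left, 1⟩ :=
      SemidirectProduct.ext rfl ((conj_lf m L x y.1).1 y.2).1
    rw [map_one]
    change χ (eW m L y.1) / χ 1 = χ (⟨(eW m L y.1).left, 1⟩ : Wc L r) / χ 1
    rw [← h2]
  refine (finsum_congr h1).trans ((finsum_comp_equiv e
    (f := fun l : {l : Cy r → L // ∃ a : Cy r, ∀ ω, IsConj (x (a * ω)) ((l ω : L) : G)} =>
      χ (⟨l.1, 1⟩ : Wc L r) / χ (1 : Wc L r))).trans ?_)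
  refine (fsum_sub (fun l : Cy r → L => ∃ a : Cy r, ∀ ω, IsConj (x (a * ω)) ((l ω : L) : G))
    (fun l => χ (⟨l, 1⟩ : Wc L r) / χ (1 : Wc L r))).trans ?_
  refine Finset.sum_congr rfl fun l _ => ?_
  by_cases h : ∃ a : Cy r, ∀ ω, IsConj (x (a * ω)) ((l ω : L) : G)
  · rw [if_pos h, if_pos h]
  · rw [if_neg h, if_neg h]

end

/-- The condition for the characters of the wreath product. -/
theorem ind_main {p r : ℕ} [Fact p.Prime] [Fact r.Prime] (hpr : p ≠ r) {G : Type} [Group G]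
    [Fintype G] {O : ValuationSubring ℂ} (hp : (p : ℂ) ∈ O.nonunits) {B : Set (G → ℂ)}
    (hB : IsBlock O B) (L : Subgroup G) [Fintype L] (m : Cy r → G) (f : Cy r → L → ℂ)
    (hf : ∀ ω, IsIrr (f ω)) (χ : Wc L r → ℂ) (hχ : IsIrr χ)
    (hs : ∀ (x : Cy r → G) (n : ℕ),
      (∀ F : (Cy r → L) → ℂ, (r : ℂ) * ∑ l : Cy r → L,
        (if ∃ a : Cy r, ∀ ω, IsConj (x (a * ω)) ((l ω : L) : G) then F l else 0) =
        n * ∑ a : Cy r, ∑ l : Cy r → L,
          if ∀ ω, IsConj (x (a * ω)) ((l ω : L) : G) then F l else 0) →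
      (r : ℂ) * ∑ l : Cy r → L, (if ∃ a : Cy r, ∀ ω, IsConj (x (a * ω)) ((l ω : L) : G) then
        χ (⟨l, 1⟩ : Wc L r) / χ (1 : Wc L r) else 0) =
        n * ∑ b : Cy r, ∏ ω, V (Subtype.val : L → G) (f (b * ω)) (x ω)) :
    (fun y : Lw m L => χ (eW m L y)) ∈ In O (LX (r := r) B) {x | x.right = 1} (Lw m L) ↔
      ∀ ω, f ω ∈ In O B Set.univ L := by
  have hr : r.Prime := Fact.out
  have hfW : Finite (Wc G r) := Finite.of_equiv _ SemidirectProduct.equivProd.symm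
  obtain ⟨χ₀, h₀⟩ := hB.nonempty
  have hχ₀ := hB.irr _ h₀
  have hψ : IsIrr (fun y : Lw m L => χ (eW m L y)) := Q222.TC.irr_comp (eW m L) hχ
  have hrκ : ((r : ℕ) : RF O) ≠ 0 := by
    rw [← red_natCast, Ne, red_nat_eq_zero_iff hp]
    intro h
    exact hpr ((Nat.prime_dvd_prime_iff_eq Fact.out hr).1 h)
  have hVm : ∀ ω g, V (Subtype.val : L → G) (f ω) g ∈ O := fun ω g => V_mem O L (hf ω) g
  have hom : ∀ θ ∈ B, ∀ g, omega θ g ∈ O := fun θ hθ g => (hB.irr _ hθ).omega_mem O g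
  have hrO : (r : ℂ) ∈ O := natCast_mem' r
  -- the values of the central characters of the block
  have key : ∀ (x : Cy r → G) (χ' : Wc G r → ℂ), χ' ∈ LX (r := r) B →
      (omega χ' (⟨x, 1⟩ : Wc G r) - ∑ᶠ y : {y : Lw m L // IsConj (⟨x, 1⟩ : Wc G r) (y : Wc G r)},
        χ (eW m L y.1) / χ (eW m L 1) ∈ O.nonunits ↔
      ∑ b : Cy r, ∏ ω, red O (V (Subtype.val : L → G) (f (b * ω)) (x ω)) =
        (r : RF O) * ∏ ω, red O (omega χ₀ (x ω))) := by
    intro x χ' hχ'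
    obtain ⟨n, hn, hsn, hn1, hn2⟩ := omega_W x
    have hnκ : (n : RF O) ≠ 0 := by
      rcases hn with rfl | rfl
      · rw [Nat.cast_one]
        exact one_ne_zero
      · exact hrκ
    have hnO : (n : ℂ) ∈ O := natCast_mem' n
    have e1 : (r : ℂ) * omega χ' (⟨x, 1⟩ : Wc G r) ∈ O ∧
        red O ((r : ℂ) * omega χ' (⟨x, 1⟩ : Wc G r)) =
        (n : RF O) * ((r : RF O) * ∏ ω, red O (omega χ₀ (x ω))) := by
      rcases hχ' with ⟨f', hf', -, rfl⟩ | ⟨θ, hθ, l, rfl⟩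
      · rw [hn1 f']
        have m1 : ∀ a : Cy r, ∏ ω, omega (f' (a * ω)) (x ω) ∈ O := fun a =>
          prod_mem fun ω _ => hom _ (hf' _) _
        have m2 : ∑ a : Cy r, ∏ ω, omega (f' (a * ω)) (x ω) ∈ O := sum_mem fun a _ => m1 a
        refine ⟨O.mul_mem _ _ hnO m2, ?_⟩
        rw [red_mul hnO m2, red_natCast, red_sum _ _ (fun a _ => m1 a)]
        congr 1
        have m3 : ∀ a : Cy r, red O (∏ ω, omega (f' (a * ω)) (x ω)) =
            ∏ ω, red O (omega χ₀ (x ω)) := by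
          intro a
          rw [red_prod O _ _ (fun ω _ => hom _ (hf' _) _)]
          exact Finset.prod_congr rfl fun ω _ => hB.red_eq (hf' _) h₀ _
        rw [Finset.sum_congr rfl fun a _ => m3 a, Finset.sum_const, Finset.card_univ, fc_Cy,
          nsmul_eq_mul]
      · rw [hn2 θ l]
        have m1 : ∏ ω, omega θ (x ω) ∈ O := prod_mem fun ω _ => hom _ hθ _
        refine ⟨O.mul_mem _ _ hrO (O.mul_mem _ _ hnO m1), ?_⟩
        rw [red_mul hrO (O.mul_mem _ _ hnO m1), red_mul hnO m1, red_natCast, red_natCast,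
          red_prod O _ _ (fun ω _ => hom _ hθ _), mul_left_comm]
        congr 2
        exact Finset.prod_congr rfl fun ω _ => hB.red_eq hθ h₀ _
    have e2 : ∑ᶠ y : {y : Lw m L // IsConj (⟨x, 1⟩ : Wc G r) (y : Wc G r)},
        χ (eW m L y.1) / χ (eW m L 1) ∈ O :=
      fs_mem O (Lw m L) hψ (⟨x, 1⟩ : Wc G r)
    have e3 : red O ((r : ℂ) * ∑ᶠ y : {y : Lw m L // IsConj (⟨x, 1⟩ : Wc G r) (y : Wc G r)},
        χ (eW m L y.1) / χ (eW m L 1)) =
        (n : RF O) * ∑ b : Cy r, ∏ ω, red O (V (Subtype.val : L → G) (f (b * ω)) (x ω)) := by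
      rw [sum_eW, hs x n (fun F => hsn L Subtype.val F)]
      have m1 : ∀ b : Cy r, ∏ ω, V (Subtype.val : L → G) (f (b * ω)) (x ω) ∈ O := fun b =>
        prod_mem fun ω _ => hVm _ _
      have m2 : ∑ b : Cy r, ∏ ω, V (Subtype.val : L → G) (f (b * ω)) (x ω) ∈ O :=
        sum_mem fun b _ => m1 b
      rw [red_mul hnO m2, red_natCast, red_sum _ _ (fun b _ => m1 b)]
      congr 1
      exact Finset.sum_congr rfl fun b _ => red_prod O _ _ (fun ω _ => hVm _ _)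
    have e4 : omega χ' (⟨x, 1⟩ : Wc G r) ∈ O := by
      have hrinv : ((r : ℂ))⁻¹ ∈ O := nat_inv_mem hp (fun h =>
        hpr ((Nat.prime_dvd_prime_iff_eq Fact.out hr).1 h))
      have h1 := O.mul_mem _ _ hrinv e1.1
      rwa [inv_mul_cancel_left₀ (Nat.cast_ne_zero.2 hr.ne_zero)] at h1
    rw [← red_eq_iff e4 e2]
    have e5 := e1.2
    rw [red_mul hrO e4, red_natCast] at e5
    rw [red_mul hrO e2, red_natCast] at e3
    constructor
    · intro h
      rw [h, e3] at e5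
      exact mul_left_cancel₀ hnκ e5
    · intro h
      rw [h, ← e5] at e3
      exact (mul_left_cancel₀ hrκ e3).symm
  have hχne : ∃ χ' : Wc G r → ℂ, χ' ∈ LX (r := r) B := ⟨cch χ₀ 1, Or.inr ⟨χ₀, h₀, 1, rfl⟩⟩
  constructor
  · rintro ⟨-, h⟩ ω
    obtain ⟨χ', hχ'⟩ := hχne
    rw [In_univ hB h₀ L (hf ω)]
    intro g
    refine trick (fun ω g => red O (V (Subtype.val : L → G) (f ω) g))
      (fun g => red O (omega χ₀ g)) ?_ ?_ hrκ ?_ ω g
    · intro ω
      rw [V_one L (hf ω).one_ne]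
      exact red_one
    · have h1 : omega χ₀ (1 : G) = 1 := by
        unfold omega
        have h2 : Nat.card {y : G // IsConj 1 y} = 1 := by
          rw [Nat.card_eq_one_iff_exists]
          refine ⟨⟨1, IsConj.refl _⟩, ?_⟩
          rintro ⟨y, hy⟩
          apply Subtype.ext
          exact isConj_one_right.1 hy
        rw [h2, Nat.cast_one, one_mul, div_self hχ₀.one_ne]
      rw [h1]
      exact red_one
    · intro x
      exact (key x χ' hχ').1 (h χ' hχ' (⟨x, 1⟩ : Wc G r) rfl)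
  · intro h
    refine ⟨hψ, ?_⟩
    rintro χ' hχ' ⟨x, a⟩ hx
    have ha : a = 1 := hx
    subst ha
    refine (key x χ' hχ').2 ?_
    have h1 : ∀ ω g, red O (V (Subtype.val : L → G) (f ω) g) = red O (omega χ₀ g) :=
      fun ω g => (In_univ hB h₀ L (hf ω)).1 (h ω) g
    simp only [h1]
    rw [Finset.sum_const, Finset.card_univ, fc_Cy, nsmul_eq_mul]

end Pool.Agent.Q14.DM
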