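import Pool.Agent.Q14.DM.Cdn3
import Pool.Agent.Y63.AWC.Deg

/-! Job CDN of project DM (helper17), part 4: the polynomial of a set of characters. -/

set_option autoImplicit false

open scoped Classical

noncomputable section

namespace Pool.Agent.Q14.DM

open Pool.Agent.H254R3.IN hiding NN
open Pool.Agent.Q17.WR Pool.Agent.Q17.AM Pool.Agent.Q162.AM Pool.Agent.Q17.DM
open Pool.Agent.Helper884

/-- the defect of a character -/
def dd (p : ℕ) {Γ : Type} [Group Γ] (χ : Γ → ℂ) : ℕ :=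
  (Nat.card Γ).factorization p - (⌊(χ 1).re⌋₊).factorization p

theorem dd_eq (p : ℕ) {Γ : Type} [Group Γ] (χ : Γ → ℂ) (n : ℕ) (hn : (n : ℂ) = χ 1) :
    dd p χ = (Nat.card Γ).factorization p - n.factorization p := by
  unfold dd
  rw [← hn, Complex.natCast_re, Nat.floor_natCast]

theorem deg_le (p : ℕ) {Γ : Type} [Group Γ] [Finite Γ] {χ : Γ → ℂ} (h : IsIrr χ) {n : ℕ}
    (hn : (n : ℂ) = χ 1) : n.factorization p ≤ (Nat.card Γ).factorization p := by
  let _ : Fintype Γ := Fintype.ofFinite _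
  have h1 : n ∣ Nat.card Γ := Y63.AWC.deg_dvd (chi := χ) h hn.symm
  have h0 : Nat.card Γ ≠ 0 := Nat.card_pos.ne'
  exact (Nat.factorization_le_iff_dvd (ne_zero_of_dvd_ne_zero h0 h1) h0).2 h1 p

theorem dd_comp (p : ℕ) {H K : Type} [Group H] [Group K] (e : H ≃* K) (χ : K → ℂ) :
    dd p (fun x => χ (e x)) = dd p χ := by
  unfold dd
  change (Nat.card H).factorization p - (⌊(χ (e 1)).re⌋₊).factorization p = _
  rw [map_one, Nat.card_congr e.toEquiv]

/-- the polynomial of the defects of the characters in a set -/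
def TT (p : ℕ) {Γ : Type} [Group Γ] (S : Set (Γ → ℂ)) : Polynomial ℤ :=
  ∑ᶠ ψ : S, Polynomial.X ^ (dd p ψ.1)

theorem irr_fin {Γ : Type} [Group Γ] [Finite Γ] (S : Set (Γ → ℂ)) (h : ∀ ψ ∈ S, IsIrr ψ) :
    S.Finite := by
  let _ : Fintype Γ := Fintype.ofFinite _
  exact (IC.irr_finite (G := Γ)).subset fun χ hχ => h χ hχ

/-- The sum of the monomials. -/
theorem TT_sum (p : ℕ) {Γ : Type} [Group Γ] [Finite Γ] (S : Set (Γ → ℂ))
    (h : ∀ ψ ∈ S, IsIrr ψ) (N : ℕ) (hN : (Nat.card Γ).factorization p ≤ N) :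
    ∑ d ∈ Finset.range (N + 1), Polynomial.monomial d
      (Nat.card {ψ : Γ → ℂ // ψ ∈ S ∧ dd p ψ = d} : ℤ) = TT p S := by
  have hS := irr_fin S h
  let _ : Fintype S := hS.fintype
  unfold TT
  rw [finsum_eq_sum_of_fintype]
  have hmap : ∀ ψ ∈ (Finset.univ : Finset S), dd p ψ.1 ∈ Finset.range (N + 1) := by
    intro ψ _
    rw [Finset.mem_range]
    have h1 : dd p ψ.1 ≤ (Nat.card Γ).factorization p := Nat.sub_le _ _
    omega
  rw [← Finset.sum_fiberwise_of_maps_to hmap]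
  refine Finset.sum_congr rfl fun d _ => ?_
  have h2 : ∀ ψ ∈ Finset.univ.filter (fun ψ : S => dd p ψ.1 = d),
      (Polynomial.X : Polynomial ℤ) ^ (dd p ψ.1) = Polynomial.X ^ d := by
    intro ψ hψ
    rw [(Finset.mem_filter.1 hψ).2]
  rw [Finset.sum_congr rfl h2, Finset.sum_const]
  have e : {ψ : Γ → ℂ // ψ ∈ S ∧ dd p ψ = d} ≃ {ψ : S // dd p ψ.1 = d} :=
    { toFun := fun ψ => ⟨⟨ψ.1, ψ.2.1⟩, ψ.2.2⟩
      invFun := fun ψ => ⟨ψ.1.1, ψ.1.2, ψ.2⟩
      left_inv := fun ψ => rfl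
      right_inv := fun ψ => rfl }
  rw [Nat.card_congr e, Nat.card_eq_fintype_card, Fintype.card_subtype,
    ← Polynomial.C_mul_X_pow_eq_monomial, nsmul_eq_mul]
  congr 1

theorem pol_eq (p : ℕ) {Γ : Type} [Group Γ] [Finite Γ] (O : ValuationSubring ℂ)
    (B : Set (Γ → ℂ)) (X : Set Γ) (H : Subgroup Γ) :
    pol p O B X H = (Nat.card H) • TT p (In O B X H) := by
  unfold pol
  congr 1
  have h0 : Nat.card Γ ≠ 0 := Nat.card_pos.ne'
  have h1 : (Nat.card H).factorization p ≤ (Nat.card Γ).factorization p :=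
    (Nat.factorization_le_iff_dvd Nat.card_pos.ne' h0).2 (Subgroup.card_subgroup_dvd_card H) p
  rw [← TT_sum p (In O B X H) (fun ψ h => h.1) _ h1]
  refine Finset.sum_congr rfl fun d _ => ?_
  congr 1
  unfold cd
  congr 1
  refine Nat.card_congr (Equiv.subtypeEquivRight fun ψ => ?_)
  constructor
  · intro h
    refine ⟨⟨h.irr, h.ind⟩, ?_⟩
    obtain ⟨n, hn, hn1⟩ := h.defect
    rw [dd_eq p ψ n hn, hn1, Nat.add_sub_cancel]
  · rintro ⟨⟨h1, h2⟩, h3⟩
    refine ⟨h1, h2, ?_⟩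
    obtain ⟨n, -, hn⟩ := h1.deg
    refine ⟨n, hn, ?_⟩
    rw [dd_eq p ψ n hn] at h3
    have := deg_le p h1 hn
    omega

/-- Transport along a bijection. -/
theorem TT_congr (p : ℕ) {H K : Type} [Group H] [Group K] (e : H ≃* K) (S : Set (H → ℂ))
    (S' : Set (K → ℂ)) (h : ∀ χ : K → ℂ, χ ∈ S' ↔ (fun x => χ (e x)) ∈ S) :
    TT p S = TT p S' := by
  unfold TT
  let E : S' ≃ S :=
    { toFun := fun χ => ⟨fun x => χ.1 (e x), (h χ.1).1 χ.2⟩
      invFun := fun ψ => ⟨fun y => ψ.1 (e.symm y), (h _).2 (by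
        have h1 : (fun x => (fun y => ψ.1 (e.symm y)) (e x)) = ψ.1 := by
          funext x
          change ψ.1 (e.symm (e x)) = ψ.1 x
          rw [MulEquiv.symm_apply_apply]
        rw [h1]
        exact ψ.2)⟩
      left_inv := fun χ => by
        apply Subtype.ext
        funext y
        change χ.1 (e (e.symm y)) = χ.1 y
        rw [MulEquiv.apply_symm_apply]
      right_inv := fun ψ => by
        apply Subtype.ext
        funext x
        change ψ.1 (e.symm (e x)) = ψ.1 x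
        rw [MulEquiv.symm_apply_apply] }
  rw [← finsum_comp_equiv E]
  refine finsum_congr fun χ => ?_
  change Polynomial.X ^ (dd p (fun x => χ.1 (e x))) = _
  rw [dd_comp]

end Pool.Agent.Q14.DM
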