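import Pool.Agent.Q14.DM.Cdn4

/-! Job CDN of project DM (helper17), part 5: the polynomial for the wreath product. -/

set_option autoImplicit false

open scoped Classical

noncomputable section

namespace Pool.Agent.Q14.DM

open Pool.Agent.H254R3.IN hiding NN
open Pool.Agent.Q17.WR Pool.Agent.Q17.AM Pool.Agent.Q162.AM Pool.Agent.Q17.DM
open Pool.Agent.Helper884

section

variable {G : Type} [Group G] {r : ℕ} [Fact r.Prime]

attribute [local instance] fL

theorem card_Wc [Finite G] : Nat.card (Wc G r) = r * (Nat.card G) ^ r := by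
  have h : Nat.card (Wc G r) = Nat.card ((Cy r → G) × Cy r) :=
    Nat.card_congr SemidirectProduct.equivProd
  have hc : Nat.card (Cy r) = r := by
    rw [Nat.card_eq_fintype_card, fc_Cy]
  rw [h, Nat.card_prod, Nat.card_fun, hc, mul_comm]

theorem dd_W {p : ℕ} [Fact p.Prime] (hpr : p ≠ r) [Finite G] (f : Cy r → G → ℂ)
    (hf : ∀ ω, IsIrr (f ω)) (χ : Wc G r → ℂ) (c : ℕ) (hc : c = 1 ∨ c = r)
    (h : χ 1 = (c : ℂ) * ∏ ω, f ω 1) : dd p χ = ∑ ω, dd p (f ω) := by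
  have hr : r.Prime := Fact.out
  have hp : p.Prime := Fact.out
  choose n hn0 hn using fun ω => (hf ω).deg
  have hrp : r.factorization p = 0 := by
    rw [Nat.factorization_eq_zero_iff]
    right; left
    intro hd
    exact hpr ((Nat.prime_dvd_prime_iff_eq hp hr).1 hd)
  have hcp : c.factorization p = 0 := by
    rcases hc with rfl | rfl
    · rw [Nat.factorization_one]
      rfl
    · exact hrp
  have hc0 : c ≠ 0 := by
    rcases hc with rfl | rfl
    · exact one_ne_zero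
    · exact hr.ne_zero
  have h1 : ((c * ∏ ω, n ω : ℕ) : ℂ) = χ 1 := by
    rw [h]
    push_cast
    congr 1
    exact Finset.prod_congr rfl fun ω _ => hn ω
  have hP : (∏ ω, n ω) ≠ 0 := Finset.prod_ne_zero_iff.2 fun ω _ => (hn0 ω).ne'
  have h2 : (∏ ω, n ω).factorization p = ∑ ω, (n ω).factorization p := by
    rw [Nat.factorization_prod fun ω _ => (hn0 ω).ne']
    exact Finsupp.finsetSum_apply _ _ _
  rw [dd_eq p χ _ h1, card_Wc, Nat.factorization_mul hr.ne_zero (pow_ne_zero _ Nat.card_pos.ne'),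
    Nat.factorization_mul hc0 hP, Nat.factorization_pow, Finsupp.add_apply, Finsupp.add_apply,
    hrp, hcp, zero_add, zero_add, h2, Finsupp.smul_apply]
  have h3 : r • (Nat.card G).factorization p = ∑ _ω : Cy r, (Nat.card G).factorization p := by
    rw [Finset.sum_const, Finset.card_univ, fc_Cy]
  rw [h3, ← Finset.sum_tsub_distrib _ (fun ω _ => deg_le p (hf ω) (hn ω))]
  exact Finset.sum_congr rfl fun ω _ => (dd_eq p (f ω) (n ω) (hn ω)).symm

/-- the characters of the first kind -/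
def Q1 (r : ℕ) [Fact r.Prime] (X : Set (G → ℂ)) : Set (Wc G r → ℂ) :=
  {χ | ∃ f : Cy r → G → ℂ, (∀ ω, f ω ∈ X) ∧ Ncn f ∧ χ = nch f}

/-- the characters of the second kind -/
def Q2 (r : ℕ) [Fact r.Prime] (X : Set (G → ℂ)) : Set (Wc G r → ℂ) :=
  {χ | ∃ θ ∈ X, ∃ l : Cy r →* ℂˣ, χ = cch θ l}

variable [Fintype G]

/-- the weight of a family -/
def Wt (p : ℕ) {X : Set (G → ℂ)} (f : Cy r → X) : Polynomial ℤ :=
  ∏ ω, Polynomial.X ^ (dd p (f ω).1)

theorem sum_Q1 (hC : S_CLS) {p : ℕ} [Fact p.Prime] (hpr : p ≠ r) (X : Set (G → ℂ))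
    (hX : ∀ χ ∈ X, IsIrr χ) :
    (r : Polynomial ℤ) * TT p (Q1 r X) =
      ∑ᶠ f : {f : Cy r → X // Ncn (fun ω => (f ω).1)}, Wt p f.1 := by
  obtain ⟨c1, -, -, c4, -, -⟩ := hC G r
  have hsec : ∀ χ : Q1 r X, ∃ f : Cy r → X, Ncn (fun ω => (f ω).1) ∧
      nch (fun ω => (f ω).1) = χ.1 := by
    rintro ⟨χ, f, hf, hn, rfl⟩
    exact ⟨fun ω => ⟨f ω, hf ω⟩, hn, rfl⟩
  choose σ hσ hσ' using hsec
  let sh : (Cy r → X) → Cy r → (Cy r → X) := fun f a ω => f (a * ω)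
  have hsh : ∀ (f : Cy r → X) (a : Cy r),
      (fun ω => (sh f a ω).1) = shf (fun ω => (f ω).1) a := fun f a => rfl
  let E : (Q1 r X) × Cy r ≃ {f : Cy r → X // Ncn (fun ω => (f ω).1)} := by
    refine Equiv.ofBijective (fun q => ⟨sh (σ q.1) q.2, shf_ncn (hσ q.1) q.2⟩) ⟨?_, ?_⟩
    · rintro ⟨χ, a⟩ ⟨χ', a'⟩ h
      have h1 : sh (σ χ) a = sh (σ χ') a' := congrArg Subtype.val h
      have h1' : shf (fun ω => (σ χ ω).1) a = shf (fun ω => (σ χ' ω).1) a' := by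
        rw [← hsh, ← hsh, h1]
      have h2 : χ = χ' := by
        apply Subtype.ext
        rw [← hσ' χ, ← hσ' χ', ← nch_shf (fun ω => (σ χ ω).1) a,
          ← nch_shf (fun ω => (σ χ' ω).1) a', h1']
      subst h2
      have h3 := shf_inj2 (fun ω => (σ χ ω).1) (hσ χ) a a' h1'
      rw [h3]
    · rintro ⟨f, hf⟩
      have hm : nch (fun ω => (f ω).1) ∈ Q1 r X := ⟨_, fun ω => (f ω).2, hf, rfl⟩
      obtain ⟨a, ha⟩ := c4 (fun ω => (σ ⟨_, hm⟩ ω).1) (fun ω => (f ω).1)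
        (fun ω => hX _ (σ ⟨_, hm⟩ ω).2) (fun ω => hX _ (f ω).2) (hσ ⟨_, hm⟩) (hσ' ⟨_, hm⟩)
      refine ⟨(⟨_, hm⟩, a), ?_⟩
      apply Subtype.ext
      funext ω
      apply Subtype.ext
      exact (congrFun ha ω).symm
  have hEv : ∀ q : (Q1 r X) × Cy r, (E q).1 = sh (σ q.1) q.2 := fun q => rfl
  have hW : ∀ q : (Q1 r X) × Cy r,
      (Polynomial.X : Polynomial ℤ) ^ (dd p q.1.1) = Wt p (E q).1 := by
    intro q
    have h1 : dd p q.1.1 = ∑ ω, dd p (σ q.1 ω).1 := by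
      rw [← hσ' q.1]
      exact dd_W hpr (fun ω => (σ q.1 ω).1) (fun ω => hX _ (σ q.1 ω).2) _ r (Or.inr rfl)
        (nch_one _)
    rw [h1, hEv]
    unfold Wt
    rw [← Finset.prod_pow_eq_pow_sum]
    exact (Equiv.prod_comp (Equiv.mulLeft q.2)
      (fun ω => (Polynomial.X : Polynomial ℤ) ^ (dd p (σ q.1 ω).1))).symm
  have hW' : Finite (Wc G r) := Finite.of_equiv _ SemidirectProduct.equivProd.symm
  have hfin : (Q1 r X).Finite := irr_fin _ (by
    rintro χ ⟨f, hf, hn, rfl⟩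
    exact c1 f (fun ω => hX _ (hf ω)) hn)
  let _ : Fintype (Q1 r X) := hfin.fintype
  rw [← finsum_comp_equiv E]
  rw [← finsum_congr hW]
  unfold TT
  rw [finsum_eq_sum_of_fintype, finsum_eq_sum_of_fintype, Fintype.sum_prod_type, Finset.mul_sum]
  refine Finset.sum_congr rfl fun χ _ => ?_
  change _ = ∑ _y : Cy r, (Polynomial.X : Polynomial ℤ) ^ (dd p χ.1)
  rw [Finset.sum_const, Finset.card_univ, fc_Cy, nsmul_eq_mul]

theorem sum_Q2 (hC : S_CLS) {p : ℕ} [Fact p.Prime] (hpr : p ≠ r) (X : Set (G → ℂ))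
    (hX : ∀ χ ∈ X, IsIrr χ) :
    TT p (Q2 r X) = (r : Polynomial ℤ) * Polynomial.expand ℤ r (TT p X) := by
  obtain ⟨-, -, -, -, c5, -⟩ := hC G r
  let _ : Fintype X := (irr_fin X hX).fintype
  let E : X × (Cy r →* ℂˣ) ≃ Q2 r X := by
    refine Equiv.ofBijective (fun q => ⟨cch q.1.1 q.2, q.1.1, q.1.2, q.2, rfl⟩) ⟨?_, ?_⟩
    · rintro ⟨θ, l⟩ ⟨θ', l'⟩ h
      have h1 : cch θ.1 l = cch θ'.1 l' := congrArg Subtype.val h
      obtain ⟨h2, h3⟩ := c5 _ _ _ _ (hX _ θ.2) (hX _ θ'.2) h1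
      exact Prod.ext (Subtype.ext h2) h3
    · rintro ⟨χ, θ, hθ, l, rfl⟩
      exact ⟨(⟨θ, hθ⟩, l), rfl⟩
  have hEv : ∀ q : X × (Cy r →* ℂˣ), (E q).1 = cch q.1.1 q.2 := fun q => rfl
  have hW : ∀ q : X × (Cy r →* ℂˣ),
      (Polynomial.X : Polynomial ℤ) ^ (dd p (E q).1) = Polynomial.X ^ (r * dd p q.1.1) := by
    intro q
    have h1 : dd p (E q).1 = ∑ _ω : Cy r, dd p q.1.1 := by
      rw [hEv]
      refine dd_W hpr (fun _ => q.1.1) (fun ω => hX _ q.1.2) _ 1 (Or.inl rfl) ?_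
      rw [cch_one, Nat.cast_one, one_mul]
    rw [h1, Finset.sum_const, Finset.card_univ, fc_Cy, smul_eq_mul]
  unfold TT
  rw [← finsum_comp_equiv E, finsum_congr hW, finsum_eq_sum_of_fintype, finsum_eq_sum_of_fintype,
    Fintype.sum_prod_type, map_sum, Finset.mul_sum]
  refine Finset.sum_congr rfl fun θ _ => ?_
  change ∑ _y : (Cy r →* ℂˣ), (Polynomial.X : Polynomial ℤ) ^ (r * dd p θ.1) = _
  rw [Finset.sum_const, Finset.card_univ, lc_card, nsmul_eq_mul, map_pow, Polynomial.expand_X,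
    pow_mul]

theorem TT_LX (hC : S_CLS) {p : ℕ} [Fact p.Prime] (hpr : p ≠ r) (X : Set (G → ℂ))
    (hX : ∀ χ ∈ X, IsIrr χ) :
    (r : Polynomial ℤ) * TT p (LX (r := r) X) + Polynomial.expand ℤ r (TT p X) =
      (TT p X) ^ r + (r : Polynomial ℤ) ^ 2 * Polynomial.expand ℤ r (TT p X) := by
  have hW' : Finite (Wc G r) := Finite.of_equiv _ SemidirectProduct.equivProd.symm
  obtain ⟨c1, c2, -, -, -, c6⟩ := hC G r
  have hf1 : (Q1 r X).Finite := irr_fin _ (by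
    rintro χ ⟨f, hf, hn, rfl⟩
    exact c1 f (fun ω => hX _ (hf ω)) hn)
  have hf2 : (Q2 r X).Finite := irr_fin _ (by
    rintro χ ⟨θ, hθ, l, rfl⟩
    exact c2 θ (hX _ hθ) l)
  have hd : Disjoint (Q1 r X) (Q2 r X) := by
    rw [Set.disjoint_left]
    rintro χ ⟨f, hf, hn, rfl⟩ ⟨θ, hθ, l, h⟩
    exact c6 f θ l (fun ω => hX _ (hf ω)) hn (hX _ hθ) h
  have hU : LX (r := r) X = Q1 r X ∪ Q2 r X := rfl
  have h1 : TT p (LX (r := r) X) = TT p (Q1 r X) + TT p (Q2 r X) := by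
    have h0 : ∀ S : Set (Wc G r → ℂ), TT p S =
        ∑ᶠ ψ ∈ S, (Polynomial.X : Polynomial ℤ) ^ (dd p ψ) := fun S =>
      finsum_set_coe_eq_finsum_mem
        (f := fun ψ : Wc G r → ℂ => (Polynomial.X : Polynomial ℤ) ^ (dd p ψ)) S
    rw [hU, h0, h0, h0]
    exact finsum_mem_union hd hf1 hf2
  let _ : Fintype X := (irr_fin X hX).fintype
  have h2 : (TT p X) ^ r = ∑ f : Cy r → X, Wt p f := by
    unfold TT Wt
    rw [finsum_eq_sum_of_fintype]
    have h3 : (∑ θ : X, (Polynomial.X : Polynomial ℤ) ^ (dd p θ.1)) ^ r =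
        ∏ _ω : Cy r, ∑ θ : X, (Polynomial.X : Polynomial ℤ) ^ (dd p θ.1) := by
      rw [Finset.prod_const, Finset.card_univ, fc_Cy]
    rw [h3, Finset.prod_univ_sum, Fintype.piFinset_univ]
  have h4 : ∑ᶠ f : {f : Cy r → X // Ncn (fun ω => (f ω).1)}, Wt p f.1 +
      Polynomial.expand ℤ r (TT p X) = ∑ f : Cy r → X, Wt p f := by
    rw [finsum_eq_sum_of_fintype]
    have h5 : ∑ f : {f : Cy r → X // Ncn (fun ω => (f ω).1)}, Wt p f.1 =
        ∑ f ∈ Finset.univ.filter (fun f : Cy r → X => Ncn (fun ω => (f ω).1)), Wt p f := by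
      refine (Finset.sum_subtype _ (fun x => ?_) _).symm
      rw [Finset.mem_filter]
      exact ⟨fun h => h.2, fun h => ⟨Finset.mem_univ _, h⟩⟩
    rw [h5, ← Finset.sum_filter_add_sum_filter_not Finset.univ
      (fun f : Cy r → X => Ncn (fun ω => (f ω).1))]
    congr 1
    unfold TT
    rw [finsum_eq_sum_of_fintype, map_sum]
    symm
    refine Finset.sum_bij' (fun f _ => f 1) (fun θ _ => fun _ => θ) ?_ ?_ ?_ ?_ ?_
    · intro f _
      exact Finset.mem_univ _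
    · intro θ _
      rw [Finset.mem_filter]
      refine ⟨Finset.mem_univ _, ?_⟩
      rintro ⟨ω, ω', h⟩
      exact h rfl
    · intro f hf
      have h6 := (Finset.mem_filter.1 hf).2
      funext ω
      by_contra h7
      apply h6
      exact ⟨1, ω, fun h8 => h7 (Subtype.ext h8)⟩
    · intro θ _
      rfl
    · intro f hf
      have h6 := (Finset.mem_filter.1 hf).2
      have h9 : ∀ ω, f ω = f 1 := by
        intro ω
        by_contra h7
        exact h6 ⟨ω, 1, fun h8 => h7 (Subtype.ext h8)⟩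
      unfold Wt
      rw [Finset.prod_congr rfl fun ω _ => by rw [h9 ω], Finset.prod_const, Finset.card_univ,
        fc_Cy, map_pow, Polynomial.expand_X, ← pow_mul, ← pow_mul, mul_comm]
  rw [h1, mul_add, sum_Q1 hC hpr X hX, sum_Q2 hC hpr X hX, h2, ← h4]
  ring

end

end Pool.Agent.Q14.DM
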